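import Pool.Agent.Lib_MP_55d5ef_geo.GDefs

open Matrix

namespace Lib_MP_55d5ef_geo

theorem bf_toR (v w : Fin 5 → ℤ) : bf (toR v) (toR w) = ((bf v w : ℤ) : ℝ) := by
  simp only [bf, toR]; push_cast; ring

theorem bf_comm {R : Type} [CommRing R] (v w : Fin 5 → R) : bf v w = bf w v := by
  simp only [bf]; ring

theorem bf_GM {R : Type} [CommRing R] (v w : Fin 5 → R) : bf v w = v ⬝ᵥ (GM *ᵥ w) := by
  simp only [bf, GM, dotProduct, Matrix.mulVec, Fin.sum_univ_five]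
  simp [Matrix.cons_val_zero, Matrix.cons_val_one]
  ring

theorem act_toR (g : GL (Fin 5) ℤ) (v : Fin 5 → ℤ) : act g (toR v) = toR (g.1 *ᵥ v) := by
  funext i
  simp only [act, toR, Matrix.mulVec, dotProduct, Matrix.map_apply]
  push_cast
  rfl

theorem act_one (x : Fin 5 → ℝ) : act 1 x = x := by
  simp [act, Matrix.map_one]

theorem act_mul (g h : GL (Fin 5) ℤ) (x : Fin 5 → ℝ) : act (g * h) x = act g (act h x) := by
  simp only [act, Matrix.mulVec_mulVec]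
  congr 1
  ext i j
  simp [Matrix.mul_apply, Matrix.map_apply]

theorem act_inv_act (g : GL (Fin 5) ℤ) (x : Fin 5 → ℝ) : act g⁻¹ (act g x) = x := by
  rw [← act_mul]; simp [act_one]

theorem act_act_inv (g : GL (Fin 5) ℤ) (x : Fin 5 → ℝ) : act g (act g⁻¹ x) = x := by
  rw [← act_mul]; simp [act_one]

/-- The Gram matrix identity. -/
theorem gram_of_isom (g : GL (Fin 5) ℤ)
    (hg : ∀ v w : Fin 5 → ℤ, bf (g.1 *ᵥ v) (g.1 *ᵥ w) = bf v w) :
    (g.1)ᵀ * (GM : Matrix (Fin 5) (Fin 5) ℤ) * g.1 = GM := by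
  ext i j
  have h := hg (Pi.single i 1) (Pi.single j 1)
  rw [bf_GM, bf_GM] at h
  simp only [Matrix.mulVec_single_one, single_one_dotProduct] at h
  simp only [Matrix.mul_assoc]
  rw [Matrix.mul_apply]
  simp only [dotProduct, Matrix.mulVec, Matrix.col_apply] at h
  simp only [Matrix.transpose_apply, Matrix.mul_apply]
  exact h

/-- An integral isometry is a real isometry. -/
theorem bf_act (g : GL (Fin 5) ℤ)
    (hg : ∀ v w : Fin 5 → ℤ, bf (g.1 *ᵥ v) (g.1 *ᵥ w) = bf v w) (x y : Fin 5 → ℝ) :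
    bf (act g x) (act g y) = bf x y := by
  have h := gram_of_isom g hg
  have h2 : (g.1.map (Int.cast : ℤ → ℝ))ᵀ * (GM : Matrix (Fin 5) (Fin 5) ℝ)
      * (g.1.map (Int.cast : ℤ → ℝ)) = GM := by
    have h3 := congrArg (fun M : Matrix (Fin 5) (Fin 5) ℤ => M.map (Int.castRingHom ℝ)) h
    have h4 : (GM : Matrix (Fin 5) (Fin 5) ℤ).map (Int.castRingHom ℝ) = GM := by
      ext i j
      fin_cases i <;> fin_cases j <;> simp [GM]
    simp only [Matrix.map_mul, h4] at h3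
    exact h3
  rw [bf_GM, bf_GM]
  unfold act
  set A := g.1.map (Int.cast : ℤ → ℝ) with hA
  calc (A *ᵥ x) ⬝ᵥ (GM *ᵥ (A *ᵥ y)) = x ⬝ᵥ (Aᵀ *ᵥ (GM *ᵥ (A *ᵥ y))) := by
        rw [Matrix.dotProduct_mulVec x, Matrix.vecMul_transpose]
    _ = x ⬝ᵥ ((Aᵀ * GM * A) *ᵥ y) := by
        simp only [Matrix.mulVec_mulVec, Matrix.mul_assoc]
    _ = x ⬝ᵥ (GM *ᵥ y) := by rw [h2]

/-- Lagrange identity for the form of `K`: Cauchy–Schwarz. -/
theorem cs_K (x y z x' y' z' : ℝ) :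
    (2 * (x * x') + 2 * (y * y') + 4 * (z * z') - (x * y' + y * x') - (x * z' + z * x')) ^ 2
      ≤ (2 * qK x y z) * (2 * qK x' y' z') := by
  -- forms: X = x-y, Y = x - z, Z = y, W = z (weights 1,1,1,3)
  have key : (2 * qK x y z) * (2 * qK x' y' z') -
    (2 * (x * x') + 2 * (y * y') + 4 * (z * z') - (x * y' + y * x') - (x * z' + z * x')) ^ 2
    = ((x - y) * (x' - z') - (x - z) * (x' - y')) ^ 2 + ((x - y) * y' - y * (x' - y')) ^ 2
      + 3 * ((x - y) * z' - z * (x' - y')) ^ 2 + ((x - z) * y' - y * (x' - z')) ^ 2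
      + 3 * ((x - z) * z' - z * (x' - z')) ^ 2 + 3 * (y * z' - z * y') ^ 2 := by
    simp only [qK]; ring
  have : 0 ≤ ((x - y) * (x' - z') - (x - z) * (x' - y')) ^ 2 + ((x - y) * y' - y * (x' - y')) ^ 2
      + 3 * ((x - y) * z' - z * (x' - y')) ^ 2 + ((x - z) * y' - y * (x' - z')) ^ 2
      + 3 * ((x - z) * z' - z * (x' - z')) ^ 2 + 3 * (y * z' - z * y') ^ 2 := by positivity
  linarith

theorem qK_eq (x y z : ℝ) : 2 * qK x y z = (x - y) ^ 2 + (x - z) ^ 2 + y ^ 2 + 3 * z ^ 2 := by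
  simp only [qK]; ring

theorem qK_nonneg (x y z : ℝ) : 0 ≤ qK x y z := by
  have := qK_eq x y z
  have h2 : 0 ≤ (x - y) ^ 2 + (x - z) ^ 2 + y ^ 2 + 3 * z ^ 2 := by positivity
  linarith

theorem qK_pos (x y z : ℝ) (h : ¬ (x = 0 ∧ y = 0 ∧ z = 0)) : 0 < qK x y z := by
  rcases lt_or_eq_of_le (qK_nonneg x y z) with h1 | h1
  · exact h1
  · exfalso
    have h2 := qK_eq x y z
    rw [← h1] at h2
    have hz : z = 0 := by nlinarith [sq_nonneg (x - y), sq_nonneg (x - z), sq_nonneg y, sq_nonneg z]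
    have hy : y = 0 := by nlinarith [sq_nonneg (x - y), sq_nonneg (x - z), sq_nonneg y, sq_nonneg z]
    have hx : x = 0 := by
      subst hz hy
      nlinarith [sq_nonneg x]
    exact h ⟨hx, hy, hz⟩

theorem coord_le_qK (x y z : ℝ) : x ^ 2 ≤ 2 * qK x y z ∧ y ^ 2 ≤ 2 * qK x y z ∧
    z ^ 2 ≤ 2 * qK x y z := by
  have h2 := qK_eq x y z
  refine ⟨?_, ?_, ?_⟩
  · nlinarith [sq_nonneg (x - 2 * y), sq_nonneg (x - 4 * z)]
  · nlinarith [sq_nonneg (x - y), sq_nonneg (x - z), sq_nonneg z]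
  · nlinarith [sq_nonneg (x - y), sq_nonneg (x - z), sq_nonneg y, sq_nonneg z]

/-- the norm in terms of `qK` -/
theorem bf_self {R : Type} [CommRing R] (v : Fin 5 → R) :
    bf v v = 2 * qK (v 1) (v 2) (v 3) - 2 * (v 0 * v 4) := by
  simp only [bf, qK]; ring

theorem HL_zero_pos {x : Fin 5 → ℝ} (hx : x ∈ HL) : 0 < x 0 := by
  obtain ⟨h1, h2⟩ := hx
  rw [bf_self] at h1
  have h3 := qK_nonneg (x 1) (x 2) (x 3)
  by_contra h
  have h := not_lt.mp h
  nlinarith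

theorem zero_pos_of_neg {x : Fin 5 → ℝ} (hx : bf x x < 0) (hx4 : 0 < x 4) : 0 < x 0 := by
  rw [bf_self] at hx
  have h3 := qK_nonneg (x 1) (x 2) (x 3)
  by_contra h
  have h := not_lt.mp h
  nlinarith

/-- Two timelike forward vectors: the product is negative. -/
theorem bf_neg_of_fwd {x y : Fin 5 → ℝ} (hx : bf x x < 0) (hx4 : 0 < x 4) (hy : bf y y < 0)
    (hy4 : 0 < y 4) : bf x y < 0 := by
  have hx0 := zero_pos_of_neg hx hx4
  have hy0 := zero_pos_of_neg hy hy4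
  have cs := cs_K (x 1) (x 2) (x 3) (y 1) (y 2) (y 3)
  rw [bf_self] at hx hy
  have hqx := qK_nonneg (x 1) (x 2) (x 3)
  have hqy := qK_nonneg (y 1) (y 2) (y 3)
  set A := qK (x 1) (x 2) (x 3)
  set B := qK (y 1) (y 2) (y 3)
  set C := 2 * (x 1 * y 1) + 2 * (x 2 * y 2) + 4 * (x 3 * y 3) - (x 1 * y 2 + x 2 * y 1)
    - (x 1 * y 3 + x 3 * y 1) with hC
  have e : bf x y = C - (x 0 * y 4 + x 4 * y 0) := by simp only [bf, hC]
  rw [e]
  have h1 : A * B < (x 0 * x 4) * (y 0 * y 4) := by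
    have ha : A < x 0 * x 4 := by linarith
    have hb : B < y 0 * y 4 := by linarith
    have : 0 < x 0 * x 4 := by positivity
    nlinarith
  have h2 : C ^ 2 < (x 0 * y 4 + x 4 * y 0) ^ 2 := by
    nlinarith [sq_nonneg (x 0 * y 4 - x 4 * y 0)]
  have h3 : 0 < x 0 * y 4 + x 4 * y 0 := by positivity
  nlinarith [abs_lt_of_sq_lt_sq h2 h3.le, le_abs_self C]

/-- Conversely. -/
theorem fwd_of_bf_neg {x y : Fin 5 → ℝ} (hx : bf x x < 0) (hx4 : 0 < x 4) (hy : bf y y < 0)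
    (h : bf x y < 0) : 0 < y 4 := by
  rcases lt_trichotomy (y 4) 0 with h4 | h4 | h4
  · exfalso
    have hy' : bf (-y) (-y) < 0 := by
      have : bf (-y) (-y) = bf y y := by simp only [bf, Pi.neg_apply]; ring
      rw [this]; exact hy
    have := bf_neg_of_fwd hx hx4 hy' (by simpa using h4)
    have e : bf x (-y) = - bf x y := by simp only [bf, Pi.neg_apply]; ring
    rw [e] at this
    linarith
  · exfalso
    rw [bf_self, h4] at hy
    have := qK_nonneg (y 1) (y 2) (y 3)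
    linarith
  · exact h4

theorem p5_toR : toR p5 = p5 := by
  funext i; fin_cases i <;> simp [toR, p5]

theorem e5_toR : toR e5 = e5 := by
  funext i; fin_cases i <;> simp [toR, e5]

/-- Isometries in `Γ` preserve the hyperboloid sheet. -/
theorem act_mem_HL {g : GL (Fin 5) ℤ}
    (hg : ∀ v w : Fin 5 → ℤ, bf (g.1 *ᵥ v) (g.1 *ᵥ w) = bf v w) (hf : 0 < (g.1 *ᵥ p5) 4)
    {x : Fin 5 → ℝ} (hx : x ∈ HL) : act g x ∈ HL := by
  obtain ⟨h1, h2⟩ := hx
  have hp : bf (p5 : Fin 5 → ℝ) p5 < 0 := by simp [bf, p5]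
  have hp4 : (0:ℝ) < (p5 : Fin 5 → ℝ) 4 := by simp [p5]
  have e1 : bf (act g x) (act g x) = -1 := by rw [bf_act g hg, h1]
  refine ⟨e1, ?_⟩
  have e2 : bf (act g p5) (act g p5) < 0 := by rw [bf_act g hg]; exact hp
  have e3 : 0 < (act g p5) 4 := by
    rw [← p5_toR, act_toR]
    simp only [toR]
    exact_mod_cast hf
  have e4 : bf (act g p5) (act g x) < 0 := by
    rw [bf_act g hg]
    exact bf_neg_of_fwd hp hp4 (by rw [h1]; norm_num) h2
  exact fwd_of_bf_neg e2 e3 (by rw [e1]; norm_num) e4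

/-- For `x ∈ HL`, `-(x,e) = x 4`. -/
theorem bf_e5 {R : Type} [CommRing R] (x : Fin 5 → R) : bf x e5 = - x 4 := by
  simp [bf, e5]

/-- `-(x, nb k) = x₄ q(z - k) + 1/(2 x₄)`, where `z = (x₁,x₂,x₃)/x₄`. -/
theorem bf_nb {x : Fin 5 → ℝ} (hx : x ∈ HL) (a b c : ℝ) :
    - bf x (nb a b c) = x 4 * qK (x 1 / x 4 - a) (x 2 / x 4 - b) (x 3 / x 4 - c)
      + 1 / (2 * x 4) := by
  obtain ⟨h1, h2⟩ := hx
  rw [bf_self] at h1
  have h0 : x 0 = (1 + 2 * qK (x 1) (x 2) (x 3)) / (2 * x 4) := by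
    field_simp; linarith
  simp only [bf, nb]
  simp only [Matrix.cons_val]
  rw [h0]
  simp only [qK]
  field_simp
  ring

/-- The same for a light-like vector `v` with `v 4 > 0`. -/
theorem bf_light {x v : Fin 5 → ℝ} (hx : x ∈ HL) (hv : bf v v = 0) (hv4 : 0 < v 4) :
    - bf x v = v 4 * (x 4 * qK (x 1 / x 4 - v 1 / v 4) (x 2 / x 4 - v 2 / v 4)
      (x 3 / x 4 - v 3 / v 4) + 1 / (2 * x 4)) := by
  obtain ⟨h1, h2⟩ := hx
  rw [bf_self] at h1 hv
  have h0 : x 0 = (1 + 2 * qK (x 1) (x 2) (x 3)) / (2 * x 4) := by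
    field_simp; linarith
  have h0' : v 0 = qK (v 1) (v 2) (v 3) / v 4 := by
    field_simp; linarith
  simp only [bf]
  rw [h0, h0']
  simp only [qK]
  field_simp
  ring

/-- The positive definite form attached to `x ∈ HL`. -/
theorem pos_form {x : Fin 5 → ℝ} (hx : x ∈ HL) (y : Fin 5 → ℝ) :
    bf y y + 2 * (bf x y) ^ 2 =
      2 * qK (y 1 - y 4 * (x 1 / x 4)) (y 2 - y 4 * (x 2 / x 4)) (y 3 - y 4 * (x 3 / x 4))
      + 2 * (x 4) ^ 2 * (y 0 - (bf ![0, x 1, x 2, x 3, 0] ![0, y 1, y 2, y 3, 0]) / x 4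
          + y 4 * qK (x 1 / x 4) (x 2 / x 4) (x 3 / x 4)) ^ 2
      + (y 4) ^ 2 / (2 * (x 4) ^ 2) := by
  obtain ⟨h1, h2⟩ := hx
  rw [bf_self] at h1
  have h0 : x 0 = (1 + 2 * qK (x 1) (x 2) (x 3)) / (2 * x 4) := by
    field_simp; linarith
  simp only [bf]
  simp only [Matrix.cons_val]
  rw [h0]
  simp only [qK]
  field_simp
  ring

end Lib_MP_55d5ef_geo
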