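import Pool.Agent.Lib_MP_55d5ef_geo.GBas

open Matrix

namespace Lib_MP_55d5ef_geo

theorem bf_add_right {R : Type} [CommRing R] (x y z : Fin 5 → R) :
    bf x (y + z) = bf x y + bf x z := by
  simp only [bf, Pi.add_apply]; ring

theorem bf_add_left {R : Type} [CommRing R] (x y z : Fin 5 → R) :
    bf (x + y) z = bf x z + bf y z := by
  simp only [bf, Pi.add_apply]; ring

theorem bf_smul_right {R : Type} [CommRing R] (c : R) (x y : Fin 5 → R) :
    bf x (c • y) = c * bf x y := by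
  simp only [bf, Pi.smul_apply, smul_eq_mul]; ring

theorem bf_smul_left {R : Type} [CommRing R] (c : R) (x y : Fin 5 → R) :
    bf (c • x) y = c * bf x y := by
  simp only [bf, Pi.smul_apply, smul_eq_mul]; ring

/-- The form is positive semidefinite on the orthogonal complement of `x ∈ HL`. -/
theorem perp_nonneg {x : Fin 5 → ℝ} (hx : x ∈ HL) {w : Fin 5 → ℝ} (h : bf x w = 0) :
    0 ≤ bf w w := by
  have h1 := pos_form hx w
  rw [h] at h1
  have h2 := qK_nonneg (w 1 - w 4 * (x 1 / x 4)) (w 2 - w 4 * (x 2 / x 4))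
    (w 3 - w 4 * (x 3 / x 4))
  have h3 : 0 ≤ 2 * (x 4) ^ 2 * (w 0 - (bf ![0, x 1, x 2, x 3, 0] ![0, w 1, w 2, w 3, 0]) / x 4
          + w 4 * qK (x 1 / x 4) (x 2 / x 4) (x 3 / x 4)) ^ 2 := by positivity
  have h4 : 0 ≤ (w 4) ^ 2 / (2 * (x 4) ^ 2) := by positivity
  linarith

/-- Cauchy–Schwarz on the orthogonal complement. -/
theorem perp_cs {x : Fin 5 → ℝ} (hx : x ∈ HL) {u w : Fin 5 → ℝ} (hu : bf x u = 0)
    (hw : bf x w = 0) : (bf u w) ^ 2 ≤ bf u u * bf w w := by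
  have h : ∀ t : ℝ, 0 ≤ (bf w w) * (t * t) + (2 * bf u w) * t + bf u u := by
    intro t
    have h1 : bf x (u + t • w) = 0 := by
      rw [bf_add_right, bf_smul_right, hu, hw]; ring
    have h2 := perp_nonneg hx h1
    have h3 : bf (u + t • w) (u + t • w) =
        (bf w w) * (t * t) + (2 * bf u w) * t + bf u u := by
      rw [bf_add_right, bf_add_left, bf_add_left, bf_smul_right, bf_smul_left, bf_smul_left,
        bf_smul_right, bf_comm w u]
      ring
    rwa [h3] at h2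
  have h4 := discrim_le_zero h
  unfold discrim at h4
  nlinarith

/-- Comparison of the positive definite forms at `x` and at the base point. -/
theorem pos_compare {x : Fin 5 → ℝ} (hx : x ∈ HL) (y : Fin 5 → ℝ) :
    (y 0) ^ 2 + (y 4) ^ 2 + 2 * qK (y 1) (y 2) (y 3) ≤
      2 * (x 0 + x 4) ^ 2 * (bf y y + 2 * (bf x y) ^ 2) := by
  obtain ⟨h1, h2⟩ := hx
  have hx : x ∈ HL := ⟨h1, h2⟩
  set c := x 0 + x 4 with hc
  set α := - bf x y with hα
  have ep : bf p5 x = - c := by simp [bf, p5, hc]; ring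
  have epp : bf (p5 : Fin 5 → ℝ) p5 = -2 := by simp [bf, p5]; norm_num
  -- perpendicular parts
  have hu : bf x (p5 - c • x) = 0 := by
    have : bf x (p5 - c • x) = bf p5 x - c * bf x x := by
      simp only [bf, Pi.sub_apply, Pi.smul_apply, smul_eq_mul]; ring
    rw [this, ep, h1]; ring
  have hw : bf x (y - α • x) = 0 := by
    have : bf x (y - α • x) = bf x y - α * bf x x := by
      simp only [bf, Pi.sub_apply, Pi.smul_apply, smul_eq_mul]; ring
    rw [this, h1, hα]; ring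
  have cs := perp_cs hx hu hw
  have n1 := perp_nonneg hx hu
  have n2 := perp_nonneg hx hw
  have e1 : bf (p5 - c • x) (p5 - c • x) = c ^ 2 - 2 := by
    have : bf (p5 - c • x) (p5 - c • x) = bf p5 p5 - 2 * c * bf p5 x + c ^ 2 * bf x x := by
      simp only [bf, Pi.sub_apply, Pi.smul_apply, smul_eq_mul]; ring
    rw [this, epp, ep, h1]; ring
  have e2 : bf (y - α • x) (y - α • x) = bf y y + α ^ 2 := by
    have : bf (y - α • x) (y - α • x) = bf y y - 2 * α * bf x y + α ^ 2 * bf x x := by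
      simp only [bf, Pi.sub_apply, Pi.smul_apply, smul_eq_mul]; ring
    rw [this, h1]
    have : bf x y = - α := by rw [hα]; ring
    rw [this]; ring
  have e3 : bf (p5 - c • x) (y - α • x) = bf p5 y + α * c := by
    have : bf (p5 - c • x) (y - α • x) =
        bf p5 y - α * bf p5 x - c * bf x y + c * α * bf x x := by
      simp only [bf, Pi.sub_apply, Pi.smul_apply, smul_eq_mul]; ring
    rw [this, ep, h1]
    have : bf x y = - α := by rw [hα]; ring
    rw [this]; ring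
  rw [e1] at n1
  rw [e2] at n2
  rw [e1, e2, e3] at cs
  have e4 : (y 0) ^ 2 + (y 4) ^ 2 + 2 * qK (y 1) (y 2) (y 3) = bf y y + (bf p5 y) ^ 2 := by
    simp only [bf, p5, qK]
    simp only [Matrix.cons_val]
    ring
  rw [e4]
  have e5 : (bf x y) ^ 2 = α ^ 2 := by rw [hα]; ring
  rw [e5]
  set D := bf p5 y + α * c with hD
  have e6 : bf p5 y = D - α * c := by rw [hD]; ring
  rw [e6]
  nlinarith [sq_nonneg (D + α * c), sq_nonneg (D - α * c), sq_nonneg α, sq_nonneg c]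

/-- Every coordinate of `y` is controlled. -/
theorem coord_bound {x : Fin 5 → ℝ} (hx : x ∈ HL) (y : Fin 5 → ℝ) (i : Fin 5) :
    (y i) ^ 2 ≤ 2 * (x 0 + x 4) ^ 2 * (bf y y + 2 * (bf x y) ^ 2) := by
  have h := pos_compare hx y
  have hc := coord_le_qK (y 1) (y 2) (y 3)
  have hq := qK_nonneg (y 1) (y 2) (y 3)
  fin_cases i
  · simp only [Fin.zero_eta]; nlinarith [sq_nonneg (y 4)]
  · simp only [Fin.mk_one]; nlinarith [sq_nonneg (y 4), sq_nonneg (y 0)]
  · simp only [Fin.reduceFinMk]; nlinarith [sq_nonneg (y 4), sq_nonneg (y 0)]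
  · simp only [Fin.reduceFinMk]; nlinarith [sq_nonneg (y 4), sq_nonneg (y 0)]
  · simp only [Fin.reduceFinMk]; nlinarith [sq_nonneg (y 0)]

/-- Integral vectors with bounded coordinates form a finite set. -/
theorem finite_box (R : ℝ) : {v : Fin 5 → ℤ | ∀ i, ((v i : ℤ) : ℝ) ^ 2 ≤ R}.Finite := by
  have h : {v : Fin 5 → ℤ | ∀ i, ((v i : ℤ) : ℝ) ^ 2 ≤ R} ⊆
      Set.Icc (fun _ => -(⌈R⌉ + 1 : ℤ)) (fun _ => (⌈R⌉ + 1 : ℤ)) := by
    intro v hv
    rw [Set.mem_Icc]
    constructor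
    · intro i
      have h1 := hv i
      have h2 : ((v i : ℤ) : ℝ) ^ 2 ≤ ((⌈R⌉ : ℤ) : ℝ) := le_trans h1 (Int.le_ceil R)
      have h3 : (v i) ^ 2 ≤ ⌈R⌉ := by exact_mod_cast h2
      show -(⌈R⌉ + 1) ≤ v i
      nlinarith
    · intro i
      have h1 := hv i
      have h2 : ((v i : ℤ) : ℝ) ^ 2 ≤ ((⌈R⌉ : ℤ) : ℝ) := le_trans h1 (Int.le_ceil R)
      have h3 : (v i) ^ 2 ≤ ⌈R⌉ := by exact_mod_cast h2
      show v i ≤ ⌈R⌉ + 1
      nlinarith
  exact (Set.finite_Icc _ _).subset h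

/-- Only finitely many isotropic integral vectors are near a point. -/
theorem finite_cusps {x : Fin 5 → ℝ} (hx : x ∈ HL) (c : ℝ) :
    {v : Fin 5 → ℤ | bf v v = 0 ∧ |bf x (toR v)| ≤ c}.Finite := by
  refine (finite_box (2 * (x 0 + x 4) ^ 2 * (2 * c ^ 2))).subset ?_
  rintro v ⟨h1, h2⟩ i
  have h3 := coord_bound hx (toR v) i
  rw [bf_toR, h1] at h3
  have h4 : (bf x (toR v)) ^ 2 ≤ c ^ 2 := by
    have := abs_nonneg (bf x (toR v))
    rw [← sq_abs (bf x (toR v))]
    nlinarith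
  have h5 : (toR v i) ^ 2 ≤ 2 * (x 0 + x 4) ^ 2 * (2 * c ^ 2) := by
    refine le_trans h3 ?_
    have : 0 ≤ 2 * (x 0 + x 4) ^ 2 := by positivity
    push_cast
    nlinarith
  exact h5

/-- A compact subset has bounded coordinates. -/
theorem compact_bound {C : Set (Fin 5 → ℝ)} (hC : IsCompact C) :
    ∃ R : ℝ, 0 ≤ R ∧ ∀ x ∈ C, ∀ i, |x i| ≤ R := by
  obtain ⟨R, hR⟩ := hC.isBounded.exists_norm_le
  refine ⟨max R 0, le_max_right _ _, fun x hx i => ?_⟩
  have h1 := hR x hx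
  have h2 := norm_le_pi_norm x i
  rw [Real.norm_eq_abs] at h2
  exact le_trans (le_trans h2 h1) (le_max_left _ _)

/-- Proper discontinuity of the integral isometry group on the hyperboloid. -/
theorem prop_disc {C : Set (Fin 5 → ℝ)} (hC : IsCompact C) (hsub : C ⊆ HL) :
    {g : GL (Fin 5) ℤ | (∀ v w : Fin 5 → ℤ, bf (g.1 *ᵥ v) (g.1 *ᵥ w) = bf v w) ∧
      ∃ x ∈ C, act g x ∈ C}.Finite := by
  obtain ⟨R, hR0, hR⟩ := compact_bound hC
  -- the bound of the entries
  set M : ℝ := 2 * (2 * R) ^ 2 * (4 + 2 * (10 * R) ^ 2) with hM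
  have hfin : {A : Matrix (Fin 5) (Fin 5) ℤ | ∀ i j, ((A i j : ℤ) : ℝ) ^ 2 ≤ M}.Finite := by
    have h1 : {A : Matrix (Fin 5) (Fin 5) ℤ | ∀ i j, ((A i j : ℤ) : ℝ) ^ 2 ≤ M} ⊆
        Set.pi Set.univ (fun _ : Fin 5 => {v : Fin 5 → ℤ | ∀ i, ((v i : ℤ) : ℝ) ^ 2 ≤ M}) := by
      intro A hA i _ j
      exact hA i j
    exact (Set.Finite.pi (fun _ => finite_box M)).subset h1
  refine Set.Finite.of_finite_image (f := fun g : GL (Fin 5) ℤ => g.1) (hfin.subset ?_) ?_
  · rintro A ⟨g, ⟨hg, x, hx, hgx⟩, rfl⟩ i j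
    have e1 : toR (Pi.single j 1) = Pi.single j 1 := by
      funext k
      simp only [toR, Pi.single_apply]
      split_ifs <;> simp
    have h1 : (act g (Pi.single j 1)) i = ((g.1 i j : ℤ) : ℝ) := by
      rw [← e1, act_toR]
      simp [toR, Matrix.mulVec_single_one]
    have h2 := coord_bound (hsub hgx) (act g (Pi.single j 1)) i
    rw [h1, bf_act g hg, bf_act g hg] at h2
    refine le_trans h2 ?_
    rw [hM]
    have hx' := hR x hx
    have hgx' := hR _ hgx
    have h3 : (act g x 0 + act g x 4) ^ 2 ≤ (2 * R) ^ 2 := by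
      have a := abs_le.mp (hgx' 0)
      have b := abs_le.mp (hgx' 4)
      apply sq_le_sq'
      · linarith
      · linarith
    have h4 : bf (Pi.single j 1 : Fin 5 → ℝ) (Pi.single j 1) ≤ 4 := by
      fin_cases j <;> simp [bf] <;> norm_num
    have h5 : (bf x (Pi.single j 1)) ^ 2 ≤ (10 * R) ^ 2 := by
      have a0 := abs_le.mp (hx' 0)
      have a1 := abs_le.mp (hx' 1)
      have a2 := abs_le.mp (hx' 2)
      have a3 := abs_le.mp (hx' 3)
      have a4 := abs_le.mp (hx' 4)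
      apply sq_le_sq'
      · fin_cases j <;> simp [bf] <;> linarith
      · fin_cases j <;> simp [bf] <;> linarith
    have h6 : 0 ≤ bf (Pi.single j 1 : Fin 5 → ℝ) (Pi.single j 1) := by
      fin_cases j <;> simp [bf]
    have h7 : 0 ≤ (act g x 0 + act g x 4) ^ 2 := sq_nonneg _
    have h8 : 0 ≤ (bf x (Pi.single j 1)) ^ 2 := sq_nonneg _
    have h9 : bf (Pi.single j 1 : Fin 5 → ℝ) (Pi.single j 1) + 2 * (bf x (Pi.single j 1)) ^ 2
        ≤ 4 + 2 * (10 * R) ^ 2 := by linarith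
    have h10 : 0 ≤ bf (Pi.single j 1 : Fin 5 → ℝ) (Pi.single j 1) +
        2 * (bf x (Pi.single j 1)) ^ 2 := by positivity
    exact mul_le_mul (by linarith) h9 h10 (by positivity)
  · intro g _ h _ hgh
    exact Units.ext hgh

end Lib_MP_55d5ef_geo
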