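import Pool.Agent.Lib_MP_55d5ef_geo.GStd
import Pool.Agent.Lib_MP_55d5ef.Data

open Matrix MeasureTheory Lib_MP_55d5ef

namespace Lib_MP_55d5ef_geo

/-- Conjugation of integral matrices by the base change. -/
noncomputable def phi : GL (Fin 5) ℤ →* GL (Fin 5) ℝ :=
  (MulAut.conj PU).toMonoidHom.comp (Matrix.GeneralLinearGroup.map (Int.castRingHom ℝ))

theorem phi_val (g : GL (Fin 5) ℤ) :
    (phi g).1 = PM * g.1.map (Int.cast : ℤ → ℝ) * QM := by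
  rfl

theorem QM_mulVec_PM (x : Fin 5 → ℝ) : QM *ᵥ (PM *ᵥ x) = x := by
  rw [Matrix.mulVec_mulVec, QM_PM, Matrix.one_mulVec]

theorem PM_mulVec_QM (x : Fin 5 → ℝ) : PM *ᵥ (QM *ᵥ x) = x := by
  rw [Matrix.mulVec_mulVec, PM_QM, Matrix.one_mulVec]

theorem phi_act (g : GL (Fin 5) ℤ) (x : Fin 5 → ℝ) :
    (phi g).1 *ᵥ (PM *ᵥ x) = PM *ᵥ (act g x) := by
  rw [phi_val, ← Matrix.mulVec_mulVec, QM_mulVec_PM, ← Matrix.mulVec_mulVec]
  rfl

theorem phi_act' (g : GL (Fin 5) ℤ) (y : Fin 5 → ℝ) :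
    (phi g).1 *ᵥ y = PM *ᵥ (act g (QM *ᵥ y)) := by
  rw [← phi_act, PM_mulVec_QM]

theorem bf_QM (v w : Fin 5 → ℝ) : bf (QM *ᵥ v) (QM *ᵥ w) = lor v w := by
  rw [← lor_PM, PM_mulVec_QM, PM_mulVec_QM]

/-- `PM` maps `HL` onto `H4`. -/
theorem PM_mem {x : Fin 5 → ℝ} (hx : x ∈ HL) : PM *ᵥ x ∈ H4 := by
  refine ⟨by rw [lor_PM]; exact hx.1, ?_⟩
  have h0 := HL_zero_pos hx
  have h4 := hx.2
  have h2 := s2_pos
  have : (PM *ᵥ x) 0 = s2 / 2 * (x 0 + x 4) := by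
    simp only [PM, Matrix.mulVec, dotProduct, Fin.sum_univ_five]
    simp only [Matrix.of_apply, Matrix.cons_val]
    ring
  rw [this]
  positivity

theorem QM_mem {y : Fin 5 → ℝ} (hy : y ∈ H4) : QM *ᵥ y ∈ HL := by
  have h1 : bf (QM *ᵥ y) (QM *ᵥ y) = -1 := by rw [bf_QM]; exact hy.1
  refine ⟨h1, ?_⟩
  by_contra h0
  have h2 : -(QM *ᵥ y) ∈ HL := by
    refine ⟨?_, ?_⟩
    · have : bf (-(QM *ᵥ y)) (-(QM *ᵥ y)) = bf (QM *ᵥ y) (QM *ᵥ y) := by
        simp only [bf, Pi.neg_apply]; ring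
      rw [this, h1]
    · rcases lt_or_eq_of_le (not_lt.mp h0) with h3 | h3
      · simpa using h3
      · exfalso
        rw [bf_self, h3] at h1
        have := qK_nonneg ((QM *ᵥ y) 1) ((QM *ᵥ y) 2) ((QM *ᵥ y) 3)
        linarith
  have h3 := PM_mem h2
  rw [Matrix.mulVec_neg, PM_mulVec_QM] at h3
  have h4 := h3.2
  have h5 := hy.2
  simp only [Pi.neg_apply] at h4
  linarith

theorem phi_injective : Function.Injective phi := by
  intro g h hgh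
  have h1 : (phi g).1 = (phi h).1 := by rw [hgh]
  rw [phi_val, phi_val] at h1
  have h2 : g.1.map (Int.cast : ℤ → ℝ) = h.1.map (Int.cast : ℤ → ℝ) := by
    have h3 := congrArg (fun M => QM * M * PM) h1
    simp only [← Matrix.mul_assoc, QM_PM, Matrix.one_mul] at h3
    simp only [Matrix.mul_assoc, QM_PM, Matrix.mul_one] at h3
    exact h3
  apply Units.ext
  ext i j
  have h4 := congrFun (congrFun h2 i) j
  simp only [Matrix.map_apply] at h4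
  exact_mod_cast h4

theorem phi_mem_SOplus {Γ : Subgroup (GL (Fin 5) ℤ)} (h : GData Γ) {g : GL (Fin 5) ℤ}
    (hg : g ∈ Γ) : phi g ∈ SOplus := by
  refine ⟨?_, ?_, ?_⟩
  · intro x y
    rw [phi_act', phi_act', lor_PM, bf_act g (h.isom g hg), bf_QM]
  · intro x hx
    rw [phi_act']
    exact PM_mem (h.mem_HL hg (QM_mem hx))
  · rw [phi_val, Matrix.det_mul, Matrix.det_mul]
    have h1 : (g.1.map (Int.cast : ℤ → ℝ)).det = 1 := by
      have := Int.cast_det (R := ℝ) g.1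
      rw [h.detone g hg] at this
      rw [← this]; simp
    have h2 : PM.det * QM.det = 1 := by rw [← Matrix.det_mul, PM_QM, Matrix.det_one]
    rw [h1, mul_one, h2]

/-- The image group. -/
noncomputable def img (Γ : Subgroup (GL (Fin 5) ℤ)) : Subgroup (GL (Fin 5) ℝ) := Γ.map phi

theorem img_manifold {Γ : Subgroup (GL (Fin 5) ℤ)} (h : GData Γ) :
    IsFiniteVolumeManifoldGroup (img Γ) where
  isometries := by
    rintro _ ⟨g, hg, rfl⟩
    exact phi_mem_SOplus h hg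
  free := by
    rintro _ ⟨g, hg, rfl⟩ x hx hfix
    rw [phi_act'] at hfix
    have h1 : act g (QM *ᵥ x) = QM *ᵥ x := by
      have := congrArg (fun y => QM *ᵥ y) hfix
      simpa only [QM_mulVec_PM] using this
    rw [h.free g hg _ (QM_mem hx) h1, map_one]
  properlyDiscontinuous := by
    intro C hC hcomp
    have hC' : IsCompact ((fun x => QM *ᵥ x) '' C) := hcomp.image (by fun_prop)
    have hsub : ((fun x => QM *ᵥ x) '' C) ⊆ HL := by
      rintro _ ⟨x, hx, rfl⟩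
      exact QM_mem (hC hx)
    refine ((prop_disc hC' hsub).image phi).subset ?_
    rintro _ ⟨⟨g, hg, rfl⟩, x, hx, hgx⟩
    refine ⟨g, ⟨h.isom g hg, QM *ᵥ x, ⟨x, hx, rfl⟩, ?_⟩, rfl⟩
    refine ⟨_, hgx, ?_⟩
    show QM *ᵥ ((phi g).1 *ᵥ x) = act g (QM *ᵥ x)
    rw [phi_act', QM_mulVec_PM]
  finiteVolume := by
    refine ⟨(fun x => PM *ᵥ x) '' FL, ?_, ?_, ?_⟩
    · rintro _ ⟨x, hx, rfl⟩
      exact PM_mem hx.1
    · have hcone : coneOver ((fun x => PM *ᵥ x) '' FL) = (fun x => PM *ᵥ x) '' coneOver FL := by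
        ext y
        constructor
        · rintro ⟨s, hs, _, ⟨x, hx, rfl⟩, rfl⟩
          exact ⟨s • x, ⟨s, hs, x, hx, rfl⟩, Matrix.mulVec_smul _ _ _⟩
        · rintro ⟨_, ⟨s, hs, x, hx, rfl⟩, rfl⟩
          exact ⟨s, hs, PM *ᵥ x, ⟨x, hx, rfl⟩, Matrix.mulVec_smul _ _ _⟩
      unfold hypVol
      rw [hcone]
      have h2 := MeasureTheory.Measure.addHaar_image_linearMap
        (volume : Measure (Fin 5 → ℝ)) (Matrix.toLin' PM) (coneOver FL)
      have h3 : (fun x => PM *ᵥ x) '' coneOver FL = (Matrix.toLin' PM) '' coneOver FL := by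
        rfl
      rw [h3, h2]
      exact ENNReal.mul_lt_top (by simp)
        (ENNReal.mul_lt_top ENNReal.ofReal_lt_top cone_FL_finite)
    · intro x hx
      obtain ⟨g, hg, hgx⟩ := fund h (QM_mem hx)
      refine ⟨phi g, ⟨g, hg, rfl⟩, ?_⟩
      rw [phi_act']
      exact ⟨_, hgx, rfl⟩

/-- The light-like vector of the cusp. -/
noncomputable def vcusp : Fin 5 → ℝ := PM *ᵥ e5

theorem lor_vcusp (x : Fin 5 → ℝ) : - lor (PM *ᵥ x) vcusp = x 4 := by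
  rw [vcusp, lor_PM, bf_e5]; ring

theorem fix_vcusp (g : GL (Fin 5) ℤ) : (phi g).1 *ᵥ vcusp = vcusp ↔ g.1 *ᵥ e5 = e5 := by
  rw [vcusp, phi_act]
  constructor
  · intro h1
    have h2 : act g e5 = e5 := by
      have := congrArg (fun y => QM *ᵥ y) h1
      simpa only [QM_mulVec_PM] using this
    rw [← e5_toR, act_toR] at h2
    funext i
    have h3 := congrFun h2 i
    simp only [toR] at h3
    exact_mod_cast h3
  · intro h1
    have h2 : act g e5 = e5 := by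
      rw [← e5_toR, act_toR, h1]
    rw [h2]

theorem stab_iff {Γ : Subgroup (GL (Fin 5) ℤ)} (h : GData Γ) {g : GL (Fin 5) ℤ} (hg : g ∈ Γ) :
    g.1 *ᵥ e5 = e5 ↔ ∃ a b c : ℤ,
      g = (TG 2 (-1) 1) ^ a * (TG 0 2 2) ^ b * (TG 4 5 (-1)) ^ c := by
  constructor
  · intro h1
    obtain ⟨x, y, z, ⟨⟨m, hm⟩, ⟨l, hl⟩⟩, hxyz⟩ := (h.stab g).1 ⟨hg, h1⟩
    refine ⟨3 * m + 2 * y + 4 * l, 4 * m + 4 * y + 7 * l, -m - y - 2 * l, ?_⟩
    rw [TG_zpow, TG_zpow, TG_zpow, TG_mul, TG_mul]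
    apply Units.ext
    rw [hxyz, TG_val]
    congr 1 <;> linarith
  · rintro ⟨a, b, c, rfl⟩
    rw [TG_zpow, TG_zpow, TG_zpow, TG_mul, TG_mul, TG_val]
    funext i
    fin_cases i <;> simp [TM, e5, Matrix.mulVec, dotProduct, Fin.sum_univ_five]

theorem TG_inj {x y z x' y' z' : ℤ} (h : TG x y z = TG x' y' z') : x = x' ∧ y = y' ∧ z = z' := by
  have h1 : TM x y z = TM x' y' z' := congrArg (fun g : GL (Fin 5) ℤ => g.1) h
  refine ⟨?_, ?_, ?_⟩
  · simpa [TM] using congrFun (congrFun h1 1) 4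
  · simpa [TM] using congrFun (congrFun h1 2) 4
  · simpa [TM] using congrFun (congrFun h1 3) 4

theorem TG_commute (x y z x' y' z' : ℤ) : Commute (TG x y z) (TG x' y' z') := by
  unfold Commute SemiconjBy
  rw [TG_mul, TG_mul]
  congr 1 <;> ring

theorem TG_mem_of {Γ : Subgroup (GL (Fin 5) ℤ)} (h : GData Γ) {x y z : ℤ}
    (hl : InLam x y z) : TG x y z ∈ Γ :=
  ((h.stab (TG x y z)).2 ⟨x, y, z, hl, rfl⟩).1

theorem img_cusp {Γ : Subgroup (GL (Fin 5) ℤ)} (h : GData Γ) (μ' τ₁' τ₂' : img Γ)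
    (hμ : μ'.1 = phi (TG 2 (-1) 1)) (h₁ : τ₁'.1 = phi (TG 0 2 2))
    (h₂ : τ₂'.1 = phi (TG 4 5 (-1))) :
    IsUniqueTorusCusp (img Γ) vcusp μ' τ₁' τ₂' := by
  have hpow : ∀ a b c : ℤ, (μ' ^ a * τ₁' ^ b * τ₂' ^ c : img Γ).1 =
      phi ((TG 2 (-1) 1) ^ a * (TG 0 2 2) ^ b * (TG 4 5 (-1)) ^ c) := by
    intro a b c
    simp only [Subgroup.coe_mul, Subgroup.coe_zpow, hμ, h₁, h₂, map_mul, map_zpow]
  refine ⟨?_, ?_, ?_, ?_, ?_⟩
  · refine ⟨?_, ?_⟩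
    · rw [vcusp, lor_PM, bf_e5_e5]
    · have : vcusp 0 = s2 / 2 := by
        simp [vcusp, PM, e5, Matrix.mulVec, dotProduct, Fin.sum_univ_five]
      rw [this]
      have := s2_pos
      positivity
  · rintro ⟨_, ⟨k, hk, rfl⟩⟩
    show (phi k).1 *ᵥ vcusp = vcusp ↔ _
    rw [fix_vcusp, stab_iff h hk]
    constructor
    · rintro ⟨a, b, c, habc⟩
      refine ⟨a, b, c, ?_⟩
      apply Subtype.ext
      rw [hpow, ← habc]
    · rintro ⟨a, b, c, habc⟩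
      refine ⟨a, b, c, ?_⟩
      have h3 := congrArg (fun g : img Γ => g.1) habc
      simp only [hpow] at h3
      exact phi_injective h3
  · refine ⟨?_, ?_, ?_⟩
    · apply Subtype.ext
      show μ'.1 * τ₁'.1 = τ₁'.1 * μ'.1
      rw [hμ, h₁, ← map_mul, ← map_mul, (TG_commute _ _ _ _ _ _).eq]
    · apply Subtype.ext
      show μ'.1 * τ₂'.1 = τ₂'.1 * μ'.1
      rw [hμ, h₂, ← map_mul, ← map_mul, (TG_commute _ _ _ _ _ _).eq]
    · apply Subtype.ext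
      show τ₁'.1 * τ₂'.1 = τ₂'.1 * τ₁'.1
      rw [h₁, h₂, ← map_mul, ← map_mul, (TG_commute _ _ _ _ _ _).eq]
  · intro a b c habc
    have h3 := congrArg (fun g : img Γ => g.1) habc
    simp only [hpow] at h3
    have h4 : (TG 2 (-1) 1) ^ a * (TG 0 2 2) ^ b * (TG 4 5 (-1)) ^ c = 1 := by
      apply phi_injective
      rw [h3, map_one]
      rfl
    rw [TG_zpow, TG_zpow, TG_zpow, TG_mul, TG_mul, ← TG_zero] at h4
    obtain ⟨e1, e2, e3⟩ := TG_inj h4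
    omega
  · refine ⟨1 / 2, by norm_num, ?_, ?_⟩
    · rintro ⟨_, ⟨k, hk, rfl⟩⟩ x hx h3 h4
      show (phi k).1 *ᵥ vcusp = vcusp
      rw [fix_vcusp]
      have e1 : -lor x vcusp = (QM *ᵥ x) 4 := by
        have := lor_vcusp (QM *ᵥ x)
        rwa [PM_mulVec_QM] at this
      have e2 : -lor ((phi k).1 *ᵥ x) vcusp = (act k (QM *ᵥ x)) 4 := by
        rw [phi_act', lor_vcusp]
      refine horo h hk (QM_mem hx) ?_ ?_
      · rw [← e1]; exact h3
      · rw [← e2]; exact h4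
    · refine ⟨(fun x => PM *ᵥ x) '' KL, ?_, KL_compact.image (by fun_prop), ?_⟩
      · rintro _ ⟨x, hx, rfl⟩
        exact PM_mem hx.1
      · intro x hx
        obtain ⟨g, hg, hgx⟩ := fund h (QM_mem hx)
        refine ⟨⟨phi g, ⟨g, hg, rfl⟩⟩, ?_⟩
        show (phi g).1 *ᵥ x ∈ _ ∨ -lor ((phi g).1 *ᵥ x) vcusp < 1 / 2
        rw [phi_act', lor_vcusp]
        rcases FL_sub hgx with h3 | h3
        · exact Or.inl ⟨_, h3, rfl⟩
        · exact Or.inr h3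

/-- **Level A.** -/
theorem levelA {Γ : Subgroup (GL (Fin 5) ℤ)} (h : GData Γ) (μ : Γ)
    (hμ : μ.1 = TG 2 (-1) 1) (hnc : Subgroup.normalClosure {μ} = ⊤) :
    ∃ (Γ' : Subgroup (GL (Fin 5) ℝ)) (v : Fin 5 → ℝ) (μ' τ₁ τ₂ : Γ'),
      IsFiniteVolumeManifoldGroup Γ' ∧ IsUniqueTorusCusp Γ' v μ' τ₁ τ₂ ∧
      Subgroup.normalClosure {μ'} = ⊤ := by
  have m1 : TG 0 2 2 ∈ Γ := TG_mem_of h ⟨⟨0, by norm_num⟩, ⟨-1, by norm_num⟩⟩
  have m2 : TG 4 5 (-1) ∈ Γ := TG_mem_of h ⟨⟨2, by norm_num⟩, ⟨-4, by norm_num⟩⟩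
  refine ⟨img Γ, vcusp, phi.subgroupMap Γ μ, phi.subgroupMap Γ ⟨_, m1⟩,
    phi.subgroupMap Γ ⟨_, m2⟩, img_manifold h, img_cusp h _ _ _ ?_ rfl rfl, ?_⟩
  · show phi μ.1 = _
    rw [hμ]
  · have h3 := Subgroup.map_normalClosure {μ} (phi.subgroupMap Γ)
      (phi.subgroupMap_surjective Γ)
    rw [hnc, Set.image_singleton,
      Subgroup.map_top_of_surjective _ (phi.subgroupMap_surjective Γ)] at h3
    exact h3.symm

end Lib_MP_55d5ef_geo
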