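import Pool.Agent.Lib_MP_55d5ef_geo.GNear

/-!
# Standard model of hyperbolic 4-space and the notions of the theorem
-/

open Matrix MeasureTheory

namespace Lib_MP_55d5ef_geo

/-- The Lorentz form of signature `(4,1)` on `ℝ⁵`. -/
def lor (x y : Fin 5 → ℝ) : ℝ :=
  x 1 * y 1 + x 2 * y 2 + x 3 * y 3 + x 4 * y 4 - x 0 * y 0

/-- Hyperbolic 4-space `H⁴`: the upper sheet of the hyperboloid `lor x x = -1`
(hyperbolic distance: `cosh d(x,y) = -lor x y`). -/
def H4 : Set (Fin 5 → ℝ) := {x | lor x x = -1 ∧ 0 < x 0}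

theorem neg_mem_H4 {x : Fin 5 → ℝ} (h : lor x x = -1) (h0 : ¬ 0 < x 0) : -x ∈ H4 := by
  refine ⟨?_, ?_⟩
  · have : lor (-x) (-x) = lor x x := by simp only [lor, Pi.neg_apply]; ring
    rw [this, h]
  · rcases lt_or_eq_of_le (not_lt.mp h0) with h1 | h1
    · simpa using h1
    · exfalso
      simp only [lor, h1] at h
      nlinarith [sq_nonneg (x 1), sq_nonneg (x 2), sq_nonneg (x 3), sq_nonneg (x 4)]

/-- The orientation preserving isometry group of `H⁴`: the group `SO⁺(4,1)`. -/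
def SOplus : Subgroup (GL (Fin 5) ℝ) where
  carrier := {g | (∀ x y, lor (g.1 *ᵥ x) (g.1 *ᵥ y) = lor x y) ∧
    (∀ x ∈ H4, g.1 *ᵥ x ∈ H4) ∧ g.1.det = 1}
  one_mem' := by
    refine ⟨?_, ?_, ?_⟩
    · intro x y; simp
    · intro x hx; simpa using hx
    · simp
  mul_mem' := by
    rintro g h ⟨g1, g2, g3⟩ ⟨h1, h2, h3⟩
    refine ⟨?_, ?_, ?_⟩
    · intro x y
      rw [Units.val_mul, ← Matrix.mulVec_mulVec, ← Matrix.mulVec_mulVec, g1, h1]
    · intro x hx
      rw [Units.val_mul, ← Matrix.mulVec_mulVec]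
      exact g2 _ (h2 _ hx)
    · rw [Units.val_mul, Matrix.det_mul, g3, h3, one_mul]
  inv_mem' := by
    rintro g ⟨g1, g2, g3⟩
    have e : ∀ x : Fin 5 → ℝ, g.1 *ᵥ ((g⁻¹).1 *ᵥ x) = x := by
      intro x
      rw [Matrix.mulVec_mulVec, ← Units.val_mul]; simp
    refine ⟨?_, ?_, ?_⟩
    · intro x y
      rw [← g1, e, e]
    · intro x hx
      have h1 : lor ((g⁻¹).1 *ᵥ x) ((g⁻¹).1 *ᵥ x) = -1 := by
        rw [← g1, e]; exact hx.1
      refine ⟨h1, ?_⟩
      by_contra h0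
      have h2 := g2 _ (neg_mem_H4 h1 h0)
      rw [Matrix.mulVec_neg, e] at h2
      have h3 := h2.2
      have h4 := hx.2
      simp only [Pi.neg_apply] at h3
      linarith
    · have h1 : (g.1 * (g⁻¹).1).det = 1 := by
        rw [← Units.val_mul]; simp
      rw [Matrix.det_mul, g3, one_mul] at h1
      exact h1

/-- Hyperbolic volume: five times the Lebesgue measure of the cone from the origin over the
set (for the Lorentz form the Riemannian volume of the hyperboloid is the cone measure). -/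
noncomputable def hypVol (A : Set (Fin 5 → ℝ)) : ENNReal := 5 * volume (coneOver A)

/-- `Γ` is the deck group of a complete orientable hyperbolic 4-manifold `H⁴/Γ` of finite
volume. -/
structure IsFiniteVolumeManifoldGroup (Γ : Subgroup (GL (Fin 5) ℝ)) : Prop where
  /-- `Γ` consists of orientation preserving isometries of `H⁴` -/
  isometries : Γ ≤ SOplus
  /-- `Γ` acts freely on `H⁴` -/
  free : ∀ g ∈ Γ, ∀ x ∈ H4, g.1 *ᵥ x = x → g = 1
  /-- `Γ` acts properly discontinuously on `H⁴` -/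
  properlyDiscontinuous : ∀ C ⊆ H4, IsCompact C →
    {g : GL (Fin 5) ℝ | g ∈ Γ ∧ ∃ x ∈ C, g.1 *ᵥ x ∈ C}.Finite
  /-- a set of finite hyperbolic volume meets every `Γ`-orbit -/
  finiteVolume : ∃ F ⊆ H4, hypVol F < ⊤ ∧ ∀ x ∈ H4, ∃ g ∈ Γ, g.1 *ᵥ x ∈ F

/-- `H⁴/Γ` has exactly one cusp, at the light-like vector `v`, and the cusp is a 3-torus
`×[0,∞)`: the stabilizer of `v` is free abelian with basis `μ, τ₁, τ₂`, a horoball centred
at `v` is precisely invariant under it, and `H⁴` is the union of the `Γ`-translates of this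
horoball and of a compact set. -/
structure IsUniqueTorusCusp (Γ : Subgroup (GL (Fin 5) ℝ)) (v : Fin 5 → ℝ) (μ τ₁ τ₂ : Γ) :
    Prop where
  light : lor v v = 0 ∧ 0 < v 0
  stabilizer : ∀ g : Γ, g.1.1 *ᵥ v = v ↔ ∃ a b c : ℤ, g = μ ^ a * τ₁ ^ b * τ₂ ^ c
  commute : Commute μ τ₁ ∧ Commute μ τ₂ ∧ Commute τ₁ τ₂
  independent : ∀ a b c : ℤ, μ ^ a * τ₁ ^ b * τ₂ ^ c = 1 → a = 0 ∧ b = 0 ∧ c = 0
  horoball : ∃ r > 0,
    (∀ g : Γ, ∀ x ∈ H4, -lor x v < r → -lor (g.1.1 *ᵥ x) v < r → g.1.1 *ᵥ v = v) ∧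
    ∃ C ⊆ H4, IsCompact C ∧ ∀ x ∈ H4, ∃ g : Γ, g.1.1 *ᵥ x ∈ C ∨ -lor (g.1.1 *ᵥ x) v < r

/-! ### The base change -/

noncomputable def s2 : ℝ := Real.sqrt 2
noncomputable def s3 : ℝ := Real.sqrt (3 / 2)
noncomputable def s10 : ℝ := Real.sqrt (10 / 3)

theorem s2_pos : 0 < s2 := Real.sqrt_pos.mpr (by norm_num)
theorem s3_pos : 0 < s3 := Real.sqrt_pos.mpr (by norm_num)
theorem s10_pos : 0 < s10 := Real.sqrt_pos.mpr (by norm_num)
theorem s2_sq : s2 ^ 2 = 2 := Real.sq_sqrt (by norm_num)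
theorem s3_sq : s3 ^ 2 = 3 / 2 := Real.sq_sqrt (by norm_num)
theorem s10_sq : s10 ^ 2 = 10 / 3 := Real.sq_sqrt (by norm_num)

/-- The base change to the Lorentz form. -/
noncomputable def PM : Matrix (Fin 5) (Fin 5) ℝ :=
  !![s2 / 2, 0, 0, 0, s2 / 2;
     0, s2, -s2 / 2, -s2 / 2, 0;
     0, 0, s3, -s3 / 3, 0;
     0, 0, 0, s10, 0;
     s2 / 2, 0, 0, 0, -s2 / 2]

/-- Its inverse. -/
noncomputable def QM : Matrix (Fin 5) (Fin 5) ℝ :=
  !![s2 / 2, 0, 0, 0, s2 / 2;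
     0, s2 / 2, s3 / 3, s10 / 5, 0;
     0, 0, 2 * s3 / 3, s10 / 10, 0;
     0, 0, 0, 3 * s10 / 10, 0;
     s2 / 2, 0, 0, 0, -s2 / 2]

theorem PM_QM : PM * QM = 1 := by
  have h2 := s2_sq
  have h3 := s3_sq
  have h10 := s10_sq
  ext i j
  fin_cases i <;> fin_cases j <;>
    simp [PM, QM, Matrix.mul_apply, Fin.sum_univ_five] <;> nlinarith

theorem QM_PM : QM * PM = 1 := by
  have h2 := s2_sq
  have h3 := s3_sq
  have h10 := s10_sq
  ext i j
  fin_cases i <;> fin_cases j <;>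
    simp [PM, QM, Matrix.mul_apply, Fin.sum_univ_five] <;> nlinarith

/-- The base change as a unit. -/
noncomputable def PU : GL (Fin 5) ℝ := ⟨PM, QM, PM_QM, QM_PM⟩

theorem lor_PM (v w : Fin 5 → ℝ) : lor (PM *ᵥ v) (PM *ᵥ w) = bf v w := by
  have h2 := s2_sq
  have h3 := s3_sq
  have h10 := s10_sq
  simp only [lor, bf, PM, Matrix.mulVec, dotProduct, Fin.sum_univ_five]
  simp only [Matrix.of_apply, Matrix.cons_val]
  ring_nf
  rw [h2, h3, h10]
  ring

end Lib_MP_55d5ef_geo
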