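import Pool.Agent.Lib_MP_55d5ef_geo.GBas

open Matrix

namespace Lib_MP_55d5ef_geo

private theorem round_one (F₁ F₂ F₃ : ℝ) (h₂ : 0 ≤ F₂) (h₃ : 0 ≤ F₃)
    (hs : F₁ + F₂ + F₃ = 1) (h12 : F₂ ≤ F₁) (h13 : F₃ ≤ F₁) :
    (1 - F₁) ^ 2 + F₂ ^ 2 + F₃ ^ 2 ≤ 2 / 3 := by
  have hF1 : 1 / 3 ≤ F₁ := by linarith
  have e1 : F₂ ^ 2 ≤ F₁ * F₂ := by nlinarith
  have e2 : F₃ ^ 2 ≤ F₁ * F₃ := by nlinarith
  have e3 : F₁ * F₂ + F₁ * F₃ = F₁ * (1 - F₁) := by
    have : F₂ + F₃ = 1 - F₁ := by linarith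
    rw [← mul_add, this]
  nlinarith

private theorem round_A2 (F₁ F₂ F₃ : ℝ) (s : ℤ) (h₁ : 0 ≤ F₁) (h₂ : 0 ≤ F₂) (h₃ : 0 ≤ F₃)
    (h₁' : F₁ < 1) (h₂' : F₂ < 1) (h₃' : F₃ < 1) (hs : F₁ + F₂ + F₃ = s) :
    ∃ ε₁ ε₂ ε₃ : ℤ, ε₁ + ε₂ + ε₃ = s ∧
      ((ε₁ : ℝ) - F₁) ^ 2 + ((ε₂ : ℝ) - F₂) ^ 2 + ((ε₃ : ℝ) - F₃) ^ 2 ≤ 2 / 3 := by
  have hs0 : 0 ≤ s := by
    have : (0 : ℝ) ≤ s := by linarith
    exact_mod_cast this
  have hs3 : s < 3 := by
    have : (s : ℝ) < 3 := by linarith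
    exact_mod_cast this
  have h012 : s = 0 ∨ s = 1 ∨ s = 2 := by omega
  rcases h012 with rfl | rfl | rfl
  · have hs' : F₁ + F₂ + F₃ = 0 := by simpa using hs
    have e1 : F₁ = 0 := by linarith
    have e2 : F₂ = 0 := by linarith
    have e3 : F₃ = 0 := by linarith
    refine ⟨0, 0, 0, rfl, ?_⟩
    rw [e1, e2, e3]
    norm_num
  · have hs' : F₁ + F₂ + F₃ = 1 := by simpa using hs
    rcases le_total F₂ F₁ with h | h
    · rcases le_total F₃ F₁ with h' | h'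
      · exact ⟨1, 0, 0, by norm_num, by
          have := round_one F₁ F₂ F₃ h₂ h₃ hs' h h'
          push_cast
          nlinarith⟩
      · exact ⟨0, 0, 1, by norm_num, by
          have := round_one F₃ F₁ F₂ h₁ h₂ (by linarith) h' (by linarith)
          push_cast
          nlinarith⟩
    · rcases le_total F₃ F₂ with h' | h'
      · exact ⟨0, 1, 0, by norm_num, by
          have := round_one F₂ F₁ F₃ h₁ h₃ (by linarith) h h'
          push_cast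
          nlinarith⟩
      · exact ⟨0, 0, 1, by norm_num, by
          have := round_one F₃ F₁ F₂ h₁ h₂ (by linarith) (by linarith) h'
          push_cast
          nlinarith⟩
  · have hs' : F₁ + F₂ + F₃ = 2 := by simpa using hs
    rcases le_total F₁ F₂ with h | h
    · rcases le_total F₁ F₃ with h' | h'
      · exact ⟨0, 1, 1, by norm_num, by
          have := round_one (1 - F₁) (1 - F₂) (1 - F₃) (by linarith)
            (by linarith) (by linarith) (by linarith) (by linarith)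
          push_cast
          nlinarith⟩
      · exact ⟨1, 1, 0, by norm_num, by
          have := round_one (1 - F₃) (1 - F₁) (1 - F₂) (by linarith)
            (by linarith) (by linarith) (by linarith) (by linarith)
          push_cast
          nlinarith⟩
    · rcases le_total F₂ F₃ with h' | h'
      · exact ⟨1, 0, 1, by norm_num, by
          have := round_one (1 - F₂) (1 - F₁) (1 - F₃) (by linarith)
            (by linarith) (by linarith) (by linarith) (by linarith)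
          push_cast
          nlinarith⟩
      · exact ⟨1, 1, 0, by norm_num, by
          have := round_one (1 - F₃) (1 - F₁) (1 - F₂) (by linarith)
            (by linarith) (by linarith) (by linarith) (by linarith)
          push_cast
          nlinarith⟩

/-- **Covering radius of `K`**: every real point has a lattice point at norm at most `3/2`
(`2 qK ≤ 3/2`). -/
theorem cov_radius (x y z : ℝ) : ∃ a b c : ℤ, qK (x - a) (y - b) (z - c) ≤ 3 / 4 := by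
  obtain ⟨w, hw⟩ : ∃ w : ℤ, |z - w| ≤ 1 / 2 := ⟨round z, abs_sub_round z⟩
  set d : ℝ := w - z with hd
  have hd4 : d ^ 2 ≤ 1 / 4 := by
    have h1 : |d| ≤ 1 / 2 := by rw [hd, abs_sub_comm]; exact hw
    have h2 := abs_le.1 h1
    nlinarith
  set C₁ : ℝ := (x - y) + d / 3 with hC₁
  set C₂ : ℝ := y + d / 3 with hC₂
  set C₃ : ℝ := (z - x) + d / 3 with hC₃
  have hC : C₁ + C₂ + C₃ = w := by rw [hC₁, hC₂, hC₃, hd]; ring
  have m1 := Int.floor_add_fract C₁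
  have m2 := Int.floor_add_fract C₂
  have m3 := Int.floor_add_fract C₃
  obtain ⟨ε₁, ε₂, ε₃, hε, hle⟩ := round_A2 (Int.fract C₁) (Int.fract C₂) (Int.fract C₃)
    (w - ⌊C₁⌋ - ⌊C₂⌋ - ⌊C₃⌋) (Int.fract_nonneg _) (Int.fract_nonneg _) (Int.fract_nonneg _)
    (Int.fract_lt_one _) (Int.fract_lt_one _) (Int.fract_lt_one _) (by
      push_cast
      linear_combination m1 + m2 + m3 + hC)
  have k1 : (ε₁ : ℝ) - Int.fract C₁ = ((⌊C₁⌋ + ε₁ : ℤ) : ℝ) - C₁ := by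
    push_cast
    linear_combination -m1
  have k2 : (ε₂ : ℝ) - Int.fract C₂ = ((⌊C₂⌋ + ε₂ : ℤ) : ℝ) - C₂ := by
    push_cast
    linear_combination -m2
  have k3 : (ε₃ : ℝ) - Int.fract C₃ = ((⌊C₃⌋ + ε₃ : ℤ) : ℝ) - C₃ := by
    push_cast
    linear_combination -m3
  rw [k1, k2, k3] at hle
  refine ⟨(⌊C₁⌋ + ε₁) + (⌊C₂⌋ + ε₂), ⌊C₂⌋ + ε₂, w, ?_⟩
  set τ₁ := ⌊C₁⌋ + ε₁ with hτ₁
  set τ₂ := ⌊C₂⌋ + ε₂ with hτ₂
  have hτ₃ : ((⌊C₃⌋ + ε₃ : ℤ) : ℝ) = w - τ₁ - τ₂ := by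
    have : ⌊C₃⌋ + ε₃ = w - τ₁ - τ₂ := by rw [hτ₁, hτ₂]; linear_combination hε
    rw [this]
    push_cast
    ring
  rw [hτ₃] at hle
  have key : 2 * qK (x - ((τ₁ + τ₂ : ℤ) : ℝ)) (y - (τ₂ : ℝ)) (z - (w : ℝ)) =
      ((τ₁ : ℝ) - C₁) ^ 2 + ((τ₂ : ℝ) - C₂) ^ 2 + ((w : ℝ) - τ₁ - τ₂ - C₃) ^ 2 +
        10 / 3 * d ^ 2 := by
    rw [hC₁, hC₂, hC₃, hd]
    unfold qK
    push_cast
    ring
  linarith

end Lib_MP_55d5ef_geo
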