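import Mathlib

/-!
# `MP_55d5ef_gt`, level A, geometric part: definitions

The lattice `L = U ⊕ K` of signature `(4,1)` in the coordinates `(a, x, y, z, b)`,
the hyperboloid `HL`, integral isometries acting on it, the base cusp `e5`, the
neighbouring cusps `nb x y z`, and the data `GData Γ` which the geometric part uses.
-/

open Matrix

namespace Lib_MP_55d5ef_geo

/-- The bilinear form of `L = U ⊕ K` in the coordinates `(a, x, y, z, b)`. -/
def bf {R : Type} [CommRing R] (v w : Fin 5 → R) : R :=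
  2 * (v 1 * w 1) + 2 * (v 2 * w 2) + 4 * (v 3 * w 3) - (v 1 * w 2 + v 2 * w 1)
    - (v 1 * w 3 + v 3 * w 1) - (v 0 * w 4 + v 4 * w 0)

/-- Half of the norm of a vector of `K`. -/
def qK {R : Type} [CommRing R] (x y z : R) : R :=
  x ^ 2 + y ^ 2 + 2 * z ^ 2 - x * y - x * z

/-- The base cusp. -/
def e5 {R : Type} [CommRing R] : Fin 5 → R := ![1, 0, 0, 0, 0]

/-- The forward vector `e + f`. -/
def p5 {R : Type} [CommRing R] : Fin 5 → R := ![1, 0, 0, 0, 1]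

/-- The neighbour of the base cusp over the lattice point `(x,y,z)`. -/
def nb {R : Type} [CommRing R] (x y z : R) : Fin 5 → R := ![qK x y z, x, y, z, 1]

/-- The Gram matrix. -/
def GM {R : Type} [CommRing R] : Matrix (Fin 5) (Fin 5) R :=
  !![0, 0, 0, 0, -1; 0, 2, -1, -1, 0; 0, -1, 2, 0, 0; 0, -1, 0, 4, 0; -1, 0, 0, 0, 0]

/-- The translation by `(x,y,z)` (the unipotent isometry fixing `e5`). -/
def TM {R : Type} [CommRing R] (x y z : R) : Matrix (Fin 5) (Fin 5) R :=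
  !![1, 2 * x - y - z, 2 * y - x, 4 * z - x, qK x y z;
     0, 1, 0, 0, x; 0, 0, 1, 0, y; 0, 0, 0, 1, z; 0, 0, 0, 0, 1]

/-- The sublattice `Λ'` of index `40` in `K`. -/
def InLam (x y z : ℤ) : Prop := 2 ∣ x ∧ 20 ∣ z - 6 * x - 11 * y

/-- An integral vector as a real vector. -/
def toR (v : Fin 5 → ℤ) : Fin 5 → ℝ := fun i => (v i : ℝ)

/-- The action of an integral matrix on real vectors. -/
def act (g : GL (Fin 5) ℤ) (x : Fin 5 → ℝ) : Fin 5 → ℝ :=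
  (g.1.map (Int.cast : ℤ → ℝ)) *ᵥ x

/-- Hyperbolic 4-space, hyperboloid model in lattice coordinates. -/
def HL : Set (Fin 5 → ℝ) := {x | bf x x = -1 ∧ 0 < x 4}

/-- What the geometric part uses of the group `Γ`. -/
structure GData (Γ : Subgroup (GL (Fin 5) ℤ)) : Prop where
  isom : ∀ g ∈ Γ, ∀ v w : Fin 5 → ℤ, bf (g.1 *ᵥ v) (g.1 *ᵥ w) = bf v w
  fwd : ∀ g ∈ Γ, 0 < (g.1 *ᵥ p5) 4
  detone : ∀ g ∈ Γ, g.1.det = 1
  adj : ∀ x y z : ℤ, ∃ g ∈ Γ, g.1 *ᵥ e5 = nb x y z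
  stab : ∀ g : GL (Fin 5) ℤ, (g ∈ Γ ∧ g.1 *ᵥ e5 = e5) ↔
    ∃ x y z : ℤ, InLam x y z ∧ g.1 = TM x y z
  free : ∀ g ∈ Γ, ∀ x ∈ HL, act g x = x → g = 1

end Lib_MP_55d5ef_geo
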