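import Pool.Agent.Lib_MP_55d5ef_geo.GBas

open Matrix MeasureTheory

namespace Lib_MP_55d5ef_geo

/-- The Ford-type fundamental set in lattice coordinates: the points `x` of the hyperboloid
over the box `[0,2) × [0,1) × [0,20)` (horospherical coordinate `z = (x₁,x₂,x₃)/x₄`) with
`x₄² ≤ 2` (that is `t ≥ 1/√2`). -/
def FL : Set (Fin 5 → ℝ) :=
  {x | x ∈ HL ∧ (x 4) ^ 2 ≤ 2 ∧ (0 ≤ x 1 / x 4 ∧ x 1 / x 4 < 2) ∧
    (0 ≤ x 2 / x 4 ∧ x 2 / x 4 < 1) ∧ (0 ≤ x 3 / x 4 ∧ x 3 / x 4 < 20)}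

/-- The cone from the origin over a set. -/
def coneOver (A : Set (Fin 5 → ℝ)) : Set (Fin 5 → ℝ) :=
  {y | ∃ s ∈ Set.Icc (0 : ℝ) 1, ∃ x ∈ A, y = s • x}

private noncomputable def gVol_a (n : ℕ) : ℝ := (3 / 2) * (1 / 2) ^ n

private theorem gVol_a_pos (n : ℕ) : 0 < gVol_a n := by
  unfold gVol_a
  positivity

private noncomputable def gVol_b (n : ℕ) : Fin 5 → ℝ :=
  ![805 * gVol_a n + 1 / gVol_a n, 2 * gVol_a n, gVol_a n, 20 * gVol_a n, gVol_a n]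

private theorem gVol_b_nonneg (n : ℕ) : (0 : Fin 5 → ℝ) ≤ gVol_b n := by
  have h := gVol_a_pos n
  intro i
  fin_cases i <;> simp only [gVol_b, Pi.zero_apply] <;> simp <;> positivity

private theorem gVol_sub : coneOver FL ⊆ ⋃ n, Set.Icc (0 : Fin 5 → ℝ) (gVol_b n) := by
  rintro y ⟨s, ⟨hs0, hs1⟩, x, ⟨⟨hx1, hx4⟩, hx2, ⟨h1, h1'⟩, ⟨h2, h2'⟩, ⟨h3, h3'⟩⟩, rfl⟩
  rcases eq_or_lt_of_le hs0 with h0 | h0
  · rw [← h0, zero_smul]
    exact Set.mem_iUnion.2 ⟨0, ⟨le_refl _, gVol_b_nonneg 0⟩⟩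
  rw [bf_self] at hx1
  have hx32 : x 4 ≤ 3 / 2 := by
    by_contra hc
    nlinarith
  have e1 : 0 ≤ x 1 := by
    have := mul_nonneg h1 hx4.le
    rwa [div_mul_cancel₀ _ hx4.ne'] at this
  have e2 : 0 ≤ x 2 := by
    have := mul_nonneg h2 hx4.le
    rwa [div_mul_cancel₀ _ hx4.ne'] at this
  have e3 : 0 ≤ x 3 := by
    have := mul_nonneg h3 hx4.le
    rwa [div_mul_cancel₀ _ hx4.ne'] at this
  rw [div_lt_iff₀ hx4] at h1' h2' h3'
  have hq0 := qK_nonneg (x 1) (x 2) (x 3)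
  have hq : qK (x 1) (x 2) (x 3) ≤ 805 * (x 4) ^ 2 := by
    have a1 : (x 1) ^ 2 ≤ 4 * (x 4) ^ 2 := by linarith [mul_self_le_mul_self e1 h1'.le]
    have a2 : (x 2) ^ 2 ≤ (x 4) ^ 2 := by linarith [mul_self_le_mul_self e2 h2'.le]
    have a3 : (x 3) ^ 2 ≤ 400 * (x 4) ^ 2 := by linarith [mul_self_le_mul_self e3 h3'.le]
    have a4 : 0 ≤ x 1 * x 2 := mul_nonneg e1 e2
    have a5 : 0 ≤ x 1 * x 3 := mul_nonneg e1 e3
    have a6 := qK_eq (x 1) (x 2) (x 3)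
    linarith
  have hx0 : x 0 = (qK (x 1) (x 2) (x 3) + 1 / 2) / x 4 := by
    field_simp
    linarith
  have hy4 : 0 < s * x 4 := mul_pos h0 hx4
  have hy32 : s * x 4 ≤ 3 / 2 := by linarith [mul_le_mul_of_nonneg_right hs1 hx4.le]
  obtain ⟨n, hn1, hn2⟩ := exists_nat_pow_near (x := (3 / 2) / (s * x 4)) (y := (2 : ℝ))
    (by rw [le_div_iff₀ hy4]; linarith) (by norm_num)
  have ha := gVol_a_pos n
  have hpow : ((1 : ℝ) / 2) ^ n * 2 ^ n = 1 := by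
    rw [← mul_pow]
    norm_num
  have hle : s * x 4 ≤ gVol_a n := by
    rw [le_div_iff₀ hy4] at hn1
    unfold gVol_a
    have h5 : (0 : ℝ) < (1 / 2) ^ n := by positivity
    calc s * x 4 = (s * x 4) * ((1 / 2) ^ n * 2 ^ n) := by rw [hpow, mul_one]
      _ = (1 / 2) ^ n * (2 ^ n * (s * x 4)) := by ring
      _ ≤ (1 / 2) ^ n * (3 / 2) := mul_le_mul_of_nonneg_left hn1 h5.le
      _ = (3 / 2) * (1 / 2) ^ n := mul_comm _ _
  have hlt : gVol_a n < 2 * (s * x 4) := by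
    rw [div_lt_iff₀ hy4, pow_succ] at hn2
    unfold gVol_a
    have h5 : (0 : ℝ) < (1 / 2) ^ n := by positivity
    calc (3 / 2) * (1 / 2) ^ n = (1 / 2) ^ n * (3 / 2) := mul_comm _ _
      _ < (1 / 2) ^ n * (2 ^ n * 2 * (s * x 4)) := mul_lt_mul_of_pos_left hn2 h5
      _ = 2 * (s * x 4) * ((1 / 2) ^ n * 2 ^ n) := by ring
      _ = 2 * (s * x 4) := by rw [hpow, mul_one]
  refine Set.mem_iUnion.2 ⟨n, ?_, ?_⟩
  · intro i
    have hx00 : 0 ≤ x 0 := by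
      rw [hx0]
      positivity
    fin_cases i <;> simp only [Pi.zero_apply, Pi.smul_apply, smul_eq_mul] <;>
      apply mul_nonneg hs0 <;> simp <;> first | assumption | exact hx4.le
  · have k1 : s * x 1 ≤ 2 * gVol_a n := by linarith [mul_le_mul_of_nonneg_left h1'.le hs0]
    have k2 : s * x 2 ≤ gVol_a n := by linarith [mul_le_mul_of_nonneg_left h2'.le hs0]
    have k3 : s * x 3 ≤ 20 * gVol_a n := by linarith [mul_le_mul_of_nonneg_left h3'.le hs0]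
    have k0 : s * x 0 ≤ 805 * gVol_a n + 1 / gVol_a n := by
      have m1 : s * x 0 = s * qK (x 1) (x 2) (x 3) / x 4 + s ^ 2 / (2 * (s * x 4)) := by
        rw [hx0]
        field_simp
      have m2 : s * qK (x 1) (x 2) (x 3) / x 4 ≤ 805 * (s * x 4) := by
        rw [div_le_iff₀ hx4]
        linarith [mul_le_mul_of_nonneg_left hq hs0]
      have m3 : s ^ 2 / (2 * (s * x 4)) ≤ 1 / gVol_a n := by
        rw [div_le_div_iff₀ (by positivity) ha]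
        have h6 : s ^ 2 ≤ 1 := pow_le_one₀ hs0 hs1
        linarith [mul_le_mul_of_nonneg_right h6 ha.le]
      rw [m1]
      linarith
    intro i
    fin_cases i <;> simp only [gVol_b, Pi.smul_apply, smul_eq_mul] <;> simp <;>
      first | assumption | simpa using k0

private theorem gVol_vol (n : ℕ) :
    volume (Set.Icc (0 : Fin 5 → ℝ) (gVol_b n)) ≤ ENNReal.ofReal (300000 * (1 / 2) ^ n) := by
  rw [Real.volume_Icc_pi]
  have ha := gVol_a_pos n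
  have h0 : ∀ i ∈ (Finset.univ : Finset (Fin 5)), 0 ≤ gVol_b n i - (0 : Fin 5 → ℝ) i := by
    intro i _
    have := gVol_b_nonneg n i
    simpa using this
  rw [← ENNReal.ofReal_prod_of_nonneg h0]
  apply ENNReal.ofReal_le_ofReal
  have h1 : ∏ i, (gVol_b n i - (0 : Fin 5 → ℝ) i) = 40 * (805 * gVol_a n ^ 5 + gVol_a n ^ 3) := by
    rw [Fin.prod_univ_five]
    simp only [gVol_b, Pi.zero_apply, sub_zero]
    simp
    field_simp
    ring
  rw [h1]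
  have h2 : (0 : ℝ) < (1 / 2) ^ n := by positivity
  have h3 : ((1 : ℝ) / 2) ^ n ≤ 1 := pow_le_one₀ (by norm_num) (by norm_num)
  have h4 : gVol_a n = (3 / 2) * (1 / 2) ^ n := rfl
  rw [h4]
  generalize ((1 : ℝ) / 2) ^ n = t at h2 h3
  have h5 : t ^ 3 ≤ t := by nlinarith [mul_nonneg h2.le (sub_nonneg.2 h3)]
  have h6 : t ^ 5 ≤ t := by
    have : t ^ 5 = t ^ 3 * t ^ 2 := by ring
    have h7 : t ^ 2 ≤ 1 := by nlinarith
    have h8 : 0 ≤ t ^ 3 := by positivity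
    nlinarith
  nlinarith

/-- **The cone over `FL` has finite Lebesgue measure** (finite hyperbolic volume of the
fundamental set).

Proof.  Let `y = s • x` with `x ∈ FL`, `0 ≤ s ≤ 1`.  If `s = 0` then `y = 0` (a null set).
Otherwise `y₄ = s x₄ ∈ (0, 3/2]` (`x₄ ≤ √2 ≤ 3/2`), `yᵢ/y₄ = xᵢ/x₄`, so `0 ≤ y₁ ≤ 2 y₄`,
`0 ≤ y₂ ≤ y₄`, `0 ≤ y₃ ≤ 20 y₄`, and `bf y y = -s² ∈ [-1,0]`, that is
`2 y₀ y₄ = 2 qK y₁ y₂ y₃ + s²`, so `y₀` lies in the interval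
`[qK y₁ y₂ y₃ / y₄, (qK y₁ y₂ y₃ + 1/2)/ y₄]` of length `1/(2 y₄)`.
So `coneOver FL ⊆ {0} ∪ S`, where `S = {y : 0 < y₄ ≤ 3/2, 0 ≤ y₁ ≤ 2 y₄, 0 ≤ y₂ ≤ y₄,
0 ≤ y₃ ≤ 20 y₄, qK/y₄ ≤ y₀ ≤ (qK + 1/2)/y₄}`.
The measure of `S` is `∫_{0 < y₄ ≤ 3/2} ∫∫∫_{box(y₄)} 1/(2 y₄) = ∫ 40 y₄³/(2 y₄) dy₄ =
20 ∫_0^{3/2} y₄² dy₄ < ∞`.  In Lean one may avoid the multiple integral: cut `S` into the
slabs `S_n = S ∩ {(3/2) 2^{-n-1} < y₄ ≤ (3/2) 2^{-n}}`; the shear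
`(y₀,…,y₄) ↦ (y₀ - qK y₁ y₂ y₃ / y₄, y₁, …)` is not linear, so either use Fubini in the
first variable (`MeasureTheory.measurePreserving_piFinSuccAbove`/`volume_preserving_…` for
`Fin 5 → ℝ ≃ ℝ × (Fin 4 → ℝ)`, then `Measure.prod_apply`: each fibre is an interval of
length `1/(2 y₄)`), with `∫⁻` over the slab base `{|y₁| ≤ 2 y₄, …}` of `1/(2 y₄)`, which is
at most `(measure of the base) * (2^{n+1}/3)`, the measure of the base is at most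
`(3/2)^4 · 40 · 2^{-4n}`; sum of a geometric series `< ∞`. -/
theorem cone_FL_finite : volume (coneOver FL) < ⊤ := by
  calc volume (coneOver FL) ≤ volume (⋃ n, Set.Icc (0 : Fin 5 → ℝ) (gVol_b n)) :=
        measure_mono gVol_sub
    _ ≤ ∑' n, volume (Set.Icc (0 : Fin 5 → ℝ) (gVol_b n)) := measure_iUnion_le _
    _ ≤ ∑' n, ENNReal.ofReal (300000 * (1 / 2) ^ n) := ENNReal.tsum_le_tsum gVol_vol
    _ < ⊤ := by
      have hs : Summable fun n : ℕ => (300000 : ℝ) * (1 / 2) ^ n :=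
        (summable_geometric_of_lt_one (by norm_num) (by norm_num)).mul_left _
      rw [← ENNReal.ofReal_tsum_of_nonneg (fun n => by positivity) hs]
      exact ENNReal.ofReal_lt_top

end Lib_MP_55d5ef_geo
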