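import Pool.Agent.Lib_MP_55d5ef_geo.GFin
import Pool.Agent.Lib_MP_55d5ef_geo.GCov
import Pool.Agent.Lib_MP_55d5ef_geo.GVol

open Matrix

namespace Lib_MP_55d5ef_geo

theorem GData.mem_HL {Γ : Subgroup (GL (Fin 5) ℤ)} (h : GData Γ) {g : GL (Fin 5) ℤ}
    (hg : g ∈ Γ) {x : Fin 5 → ℝ} (hx : x ∈ HL) : act g x ∈ HL :=
  act_mem_HL (h.isom g hg) (h.fwd g hg) hx

/-- The last coordinate of `g x` is minus the product with the cusp `g⁻¹ e`. -/
theorem act_four {g : GL (Fin 5) ℤ}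
    (hg : ∀ v w : Fin 5 → ℤ, bf (g.1 *ᵥ v) (g.1 *ᵥ w) = bf v w) (x : Fin 5 → ℝ) :
    (act g x) 4 = - bf x (toR ((g⁻¹).1 *ᵥ e5)) := by
  have h1 : bf (act g x) e5 = - (act g x) 4 := bf_e5 _
  have h2 : act g (toR ((g⁻¹).1 *ᵥ e5)) = e5 := by
    rw [← act_toR, act_act_inv, e5_toR]
  have h3 := bf_act g hg x (toR ((g⁻¹).1 *ᵥ e5))
  rw [h2, h1] at h3
  linarith

theorem bf_e5_e5 {R : Type} [CommRing R] : bf (e5 : Fin 5 → R) e5 = 0 := by
  simp [bf, e5]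

/-- **A nearest cusp exists.** -/
theorem nearest {Γ : Subgroup (GL (Fin 5) ℤ)} (h : GData Γ) {x : Fin 5 → ℝ} (hx : x ∈ HL) :
    ∃ g ∈ Γ, ∀ k ∈ Γ, (act g x) 4 ≤ (act k x) 4 := by
  -- the finite set of cusps below the level of `e5`
  set S : Set (Fin 5 → ℤ) := {v | (∃ k ∈ Γ, v = (k⁻¹).1 *ᵥ e5) ∧ - bf x (toR v) ≤ x 4} with hS
  have hfin : S.Finite := by
    refine (finite_cusps hx (x 4)).subset ?_
    rintro v ⟨⟨k, hk, rfl⟩, hv⟩
    have hkinv := Γ.inv_mem hk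
    refine ⟨?_, ?_⟩
    · rw [h.isom _ hkinv, bf_e5_e5]
    · have h1 := act_four (h.isom k hk) x
      have h2 := (h.mem_HL hk hx).2
      rw [abs_le]
      constructor
      · linarith
      · linarith [hx.2]
  have hne : S.Nonempty := by
    refine ⟨e5, ⟨1, Γ.one_mem, by simp⟩, ?_⟩
    rw [e5_toR, bf_e5]; linarith
  obtain ⟨v, hv, hmin⟩ := Set.exists_min_image S (fun v => - bf x (toR v)) hfin hne
  obtain ⟨⟨g, hg, rfl⟩, hv2⟩ := hv
  refine ⟨g, hg, fun k hk => ?_⟩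
  rw [act_four (h.isom g hg), act_four (h.isom k hk)]
  by_cases hle : - bf x (toR ((k⁻¹).1 *ᵥ e5)) ≤ x 4
  · exact hmin _ ⟨⟨k, hk, rfl⟩, hle⟩
  · have := not_le.mp hle
    linarith

/-- If the base cusp is nearest to `x` then `x₄² ≤ 2` (height `t ≥ 1/√2`). -/
theorem near_sq {Γ : Subgroup (GL (Fin 5) ℤ)} (h : GData Γ) {x : Fin 5 → ℝ} (hx : x ∈ HL)
    (hmin : ∀ k ∈ Γ, x 4 ≤ (act k x) 4) : (x 4) ^ 2 ≤ 2 := by
  obtain ⟨a, b, c, habc⟩ := cov_radius (x 1 / x 4) (x 2 / x 4) (x 3 / x 4)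
  obtain ⟨g, hg, hge⟩ := h.adj a b c
  have h1 := hmin _ (Γ.inv_mem hg)
  rw [act_four (h.isom _ (Γ.inv_mem hg)), inv_inv, hge] at h1
  have h2 : toR (nb a b c) = nb (a : ℝ) (b : ℝ) (c : ℝ) := by
    funext i
    fin_cases i <;> simp [toR, nb, qK]
  rw [h2, bf_nb hx] at h1
  have h4 := hx.2
  have h5 : x 4 * qK (x 1 / x 4 - a) (x 2 / x 4 - b) (x 3 / x 4 - c) ≤ x 4 * (3 / 4) :=
    mul_le_mul_of_nonneg_left habc h4.le
  have h6 : x 4 / 4 ≤ 1 / (2 * x 4) := by linarith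
  rw [div_le_div_iff₀ (by norm_num) (by positivity)] at h6
  nlinarith

/-- Translations. -/
theorem act_TM {g : GL (Fin 5) ℤ} {a b c : ℤ} (hg : g.1 = TM a b c) (x : Fin 5 → ℝ) :
    (act g x) 4 = x 4 ∧ (act g x) 1 = x 1 + a * x 4 ∧ (act g x) 2 = x 2 + b * x 4 ∧
      (act g x) 3 = x 3 + c * x 4 := by
  unfold act
  rw [hg]
  refine ⟨?_, ?_, ?_, ?_⟩ <;>
    simp [TM, Matrix.mulVec, dotProduct, Fin.sum_univ_five]

theorem exists_TM (a b c : ℤ) : ∃ k : GL (Fin 5) ℤ, k.1 = TM a b c := by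
  have hT : (TM a b c : Matrix (Fin 5) (Fin 5) ℤ).det = 1 := by
    rw [Matrix.det_of_isUpperTriangular]
    · simp [TM, Fin.prod_univ_five]
    · intro i j hij
      fin_cases i <;> fin_cases j <;> simp [TM] at hij ⊢
  have hu : IsUnit (TM a b c : Matrix (Fin 5) (Fin 5) ℤ).det := by rw [hT]; exact isUnit_one
  exact ⟨Matrix.GeneralLinearGroup.mk'' _ hu, rfl⟩

/-- **The fundamental set.** -/
theorem fund {Γ : Subgroup (GL (Fin 5) ℤ)} (h : GData Γ) {x : Fin 5 → ℝ} (hx : x ∈ HL) :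
    ∃ g ∈ Γ, act g x ∈ FL := by
  obtain ⟨g, hg, hmin⟩ := nearest h hx
  set y := act g x with hy
  have hyH : y ∈ HL := h.mem_HL hg hx
  have hy2 : (y 4) ^ 2 ≤ 2 := by
    refine near_sq h hyH fun k hk => ?_
    rw [hy, ← act_mul]
    exact hmin _ (Γ.mul_mem hk hg)
  -- translate into the box
  have hy4 := hyH.2
  set z1 := y 1 / y 4 with hz1
  set z2 := y 2 / y 4 with hz2
  set z3 := y 3 / y 4 with hz3
  set m : ℤ := -⌊z1 / 2⌋ with hm
  set n : ℤ := -⌊z2⌋ with hn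
  set l : ℤ := -⌊(z3 + 12 * m + 11 * n) / 20⌋ with hl
  have hlam : InLam (2 * m) n (12 * m + 11 * n + 20 * l) := by
    refine ⟨⟨m, rfl⟩, ⟨l, by ring⟩⟩
  obtain ⟨k, hk⟩ := exists_TM (2 * m) n (12 * m + 11 * n + 20 * l)
  have hkΓ : k ∈ Γ := ((h.stab k).2 ⟨_, _, _, hlam, hk⟩).1
  refine ⟨k * g, Γ.mul_mem hkΓ hg, ?_⟩
  rw [act_mul, ← hy]
  obtain ⟨e4, e1, e2, e3⟩ := act_TM hk y
  refine ⟨h.mem_HL hkΓ hyH, by rw [e4]; exact hy2, ?_, ?_, ?_⟩
  · rw [e4, e1]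
    have : (y 1 + ((2 * m : ℤ) : ℝ) * y 4) / y 4 = z1 + 2 * m := by
      rw [hz1]; push_cast; field_simp
    rw [this]
    have h1 := Int.floor_le (z1 / 2)
    have h2 := Int.lt_floor_add_one (z1 / 2)
    rw [hm]; push_cast
    constructor <;> linarith
  · rw [e4, e2]
    have : (y 2 + ((n : ℤ) : ℝ) * y 4) / y 4 = z2 + n := by
      rw [hz2]; field_simp
    rw [this]
    have h1 := Int.floor_le z2
    have h2 := Int.lt_floor_add_one z2
    rw [hn]; push_cast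
    constructor <;> linarith
  · rw [e4, e3]
    have : (y 3 + ((12 * m + 11 * n + 20 * l : ℤ) : ℝ) * y 4) / y 4
        = z3 + 12 * m + 11 * n + 20 * l := by
      rw [hz3]; push_cast; field_simp; ring
    rw [this]
    have h1 := Int.floor_le ((z3 + 12 * m + 11 * n) / 20)
    have h2 := Int.lt_floor_add_one ((z3 + 12 * m + 11 * n) / 20)
    have h3 : (l : ℝ) = - (⌊(z3 + 12 * m + 11 * n) / 20⌋ : ℝ) := by rw [hl]; push_cast; rfl
    rw [h3]
    constructor <;> linarith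

/-- The stabilizer condition from a vector with last coordinate zero. -/
theorem light_four_nonneg {Γ : Subgroup (GL (Fin 5) ℤ)} (h : GData Γ) {g : GL (Fin 5) ℤ}
    (hg : g ∈ Γ) : 0 ≤ (g.1 *ᵥ e5) 4 ∧ ((g.1 *ᵥ e5) 4 = 0 → g.1 *ᵥ e5 = e5) := by
  set v := g.1 *ᵥ (e5 : Fin 5 → ℤ) with hv
  have hvv : bf v v = 0 := by rw [hv, h.isom g hg, bf_e5_e5]
  have hq : qK (v 1) (v 2) (v 3) = v 0 * v 4 := by
    rw [bf_self] at hvv; linarith
  -- forward
  have hp : 0 < v 0 + v 4 := by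
    set x : Fin 5 → ℝ := ![Real.sqrt 2 / 2, 0, 0, 0, Real.sqrt 2 / 2] with hx
    have h2 : (0:ℝ) < Real.sqrt 2 := by positivity
    have h22 : Real.sqrt 2 * Real.sqrt 2 = 2 := Real.mul_self_sqrt (by norm_num)
    have hxH : x ∈ HL := by
      refine ⟨?_, ?_⟩
      · simp only [bf, hx]; simp only [Matrix.cons_val]; nlinarith
      · simp only [hx]; simp only [Matrix.cons_val]; positivity
    have h3 := act_four (h.isom _ (Γ.inv_mem hg)) x
    have h4 := (h.mem_HL (Γ.inv_mem hg) hxH).2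
    rw [h3, inv_inv] at h4
    rw [← hv] at h4
    have h5 : bf x (toR v) = - (Real.sqrt 2 / 2) * ((v 0 : ℝ) + v 4) := by
      simp only [bf, hx, toR]; simp only [Matrix.cons_val]; ring
    rw [h5] at h4
    have h6 : 0 < (Real.sqrt 2 / 2) * ((v 0 : ℝ) + v 4) := by linarith
    have h7 : (0:ℝ) < (v 0 : ℝ) + v 4 := by
      by_contra hcon
      have := not_lt.mp hcon
      nlinarith
    exact_mod_cast h7
  have hqn : 0 ≤ v 0 * v 4 := by
    rw [← hq]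
    have := qK_nonneg (v 1 : ℝ) (v 2) (v 3)
    have h2 : ((qK (v 1) (v 2) (v 3) : ℤ) : ℝ) = qK (v 1 : ℝ) (v 2) (v 3) := by
      simp [qK]
    rw [← h2] at this
    exact_mod_cast this
  refine ⟨?_, fun h4 => ?_⟩
  · by_contra hcon
    have := not_le.mp hcon
    nlinarith
  · rw [h4] at hp hq
    have h0 : 0 < v 0 := by linarith
    have hz : v 1 = 0 ∧ v 2 = 0 ∧ v 3 = 0 := by
      by_contra hcon
      have h5 := qK_pos (v 1 : ℝ) (v 2) (v 3) (by
        intro ⟨a, b, c⟩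
        exact hcon ⟨by exact_mod_cast a, by exact_mod_cast b, by exact_mod_cast c⟩)
      have h2 : ((qK (v 1) (v 2) (v 3) : ℤ) : ℝ) = qK (v 1 : ℝ) (v 2) (v 3) := by
        simp [qK]
      rw [← h2, hq] at h5
      simp at h5
    have hve : v = (v 0) • (e5 : Fin 5 → ℤ) := by
      funext i
      fin_cases i
      · simp [e5]
      · simp [e5, hz.1]
      · simp [e5, hz.2.1]
      · simp [e5, hz.2.2]
      · simp [e5, h4]
    have hinv : (g⁻¹).1 *ᵥ v = e5 := by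
      rw [hv, Matrix.mulVec_mulVec]
      have : (g⁻¹).1 * g.1 = 1 := by
        rw [← Units.val_mul]; simp
      rw [this, Matrix.one_mulVec]
    rw [hve, Matrix.mulVec_smul] at hinv
    have h0' := congrFun hinv 0
    simp only [Pi.smul_apply, smul_eq_mul, e5] at h0'
    simp only [Matrix.cons_val] at h0'
    have h1 : v 0 ∣ 1 := ⟨_, h0'.symm⟩
    have h11 : v 0 = 1 := Int.eq_one_of_dvd_one h0.le h1
    rw [hve, h11, one_smul]

/-- **The horoball `x₄ < 1/2` is precisely invariant.** -/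
theorem horo {Γ : Subgroup (GL (Fin 5) ℤ)} (h : GData Γ) {g : GL (Fin 5) ℤ}
    (hg : g ∈ Γ) {x : Fin 5 → ℝ} (hx : x ∈ HL) (h1 : x 4 < 1 / 2) (h2 : (act g x) 4 < 1 / 2) :
    g.1 *ᵥ e5 = e5 := by
  have hgi := Γ.inv_mem hg
  obtain ⟨h3, h4⟩ := light_four_nonneg h hgi
  have hfin : (g⁻¹).1 *ᵥ (e5 : Fin 5 → ℤ) = e5 → g.1 *ᵥ (e5 : Fin 5 → ℤ) = e5 := by
    intro he
    have : g.1 *ᵥ ((g⁻¹).1 *ᵥ (e5 : Fin 5 → ℤ)) = e5 := by
      rw [Matrix.mulVec_mulVec]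
      have : g.1 * (g⁻¹).1 = 1 := by
        rw [← Units.val_mul]; simp
      rw [this, Matrix.one_mulVec]
    rwa [he] at this
  rcases eq_or_lt_of_le h3 with h5 | h5
  · exact hfin (h4 h5.symm)
  · exfalso
    rw [act_four (h.isom g hg)] at h2
    set u := (g⁻¹).1 *ᵥ (e5 : Fin 5 → ℤ) with hu
    have hu4 : (0:ℝ) < (toR u) 4 := by simp only [toR]; exact_mod_cast h5
    have hu1 : (1:ℝ) ≤ (toR u) 4 := by
      simp only [toR]
      have : (1:ℤ) ≤ u 4 := by omega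
      exact_mod_cast this
    have huu : bf (toR u) (toR u) = 0 := by
      rw [bf_toR, hu, h.isom _ hgi, bf_e5_e5]; simp
    rw [bf_light hx huu hu4] at h2
    have hx4 := hx.2
    have h6 := qK_nonneg (x 1 / x 4 - toR u 1 / toR u 4) (x 2 / x 4 - toR u 2 / toR u 4)
      (x 3 / x 4 - toR u 3 / toR u 4)
    have h7 : 1 < 1 / (2 * x 4) := by
      rw [lt_div_iff₀ (by positivity)]; linarith
    have h8 : 1 / (2 * x 4) ≤ x 4 * qK (x 1 / x 4 - toR u 1 / toR u 4)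
        (x 2 / x 4 - toR u 2 / toR u 4) (x 3 / x 4 - toR u 3 / toR u 4) + 1 / (2 * x 4) := by
      have : 0 ≤ x 4 * qK (x 1 / x 4 - toR u 1 / toR u 4)
        (x 2 / x 4 - toR u 2 / toR u 4) (x 3 / x 4 - toR u 3 / toR u 4) := by positivity
      linarith
    nlinarith

/-- The compact part. -/
def KL : Set (Fin 5 → ℝ) :=
  {x | x ∈ HL ∧ 1 / 4 ≤ x 4 ∧ (x 4) ^ 2 ≤ 2 ∧ (0 ≤ x 1 ∧ x 1 ≤ 2 * x 4) ∧
    (0 ≤ x 2 ∧ x 2 ≤ x 4) ∧ (0 ≤ x 3 ∧ x 3 ≤ 20 * x 4)}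

theorem KL_compact : IsCompact KL := by
  have hsub : KL ⊆ Set.Icc (fun _ => (-10000 : ℝ)) (fun _ => (10000 : ℝ)) := by
    rintro x ⟨⟨hx, hx4⟩, h1, h2, ⟨a1, a2⟩, ⟨b1, b2⟩, ⟨c1, c2⟩⟩
    have h4 : x 4 ≤ 3 / 2 := by nlinarith
    have ha : x 1 ≤ 3 := by linarith
    have hb : x 2 ≤ 3 / 2 := by linarith
    have hc : x 3 ≤ 30 := by linarith
    rw [bf_self] at hx
    have hq : qK (x 1) (x 2) (x 3) ≤ 2000 := by
      have e1 : (x 1) ^ 2 ≤ 9 := by nlinarith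
      have e2 : (x 2) ^ 2 ≤ 9 := by nlinarith
      have e3 : (x 3) ^ 2 ≤ 900 := by nlinarith
      have e4 : 0 ≤ x 1 * x 2 := by positivity
      have e5 : 0 ≤ x 1 * x 3 := by positivity
      simp only [qK]; nlinarith
    have h0 : x 0 * x 4 ≤ 2001 := by linarith
    have hq0 := qK_nonneg (x 1) (x 2) (x 3)
    have h00 : 0 < x 0 * x 4 := by linarith
    have h0p : 0 < x 0 := by
      by_contra hcon
      have := not_lt.mp hcon
      nlinarith
    have h0u : x 0 ≤ 10000 := by nlinarith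
    rw [Set.mem_Icc]
    constructor
    · intro i
      show (-10000 : ℝ) ≤ x i
      fin_cases i <;> simp <;> linarith
    · intro i
      show x i ≤ 10000
      fin_cases i <;> simp <;> linarith
  have hcl : IsClosed KL := by
    have : KL = {x : Fin 5 → ℝ | bf x x = -1 ∧ 1 / 4 ≤ x 4 ∧ (x 4) ^ 2 ≤ 2 ∧
        (0 ≤ x 1 ∧ x 1 ≤ 2 * x 4) ∧ (0 ≤ x 2 ∧ x 2 ≤ x 4) ∧ (0 ≤ x 3 ∧ x 3 ≤ 20 * x 4)} := by
      ext x
      constructor
      · rintro ⟨⟨a, b⟩, c⟩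
        exact ⟨a, c⟩
      · rintro ⟨a, b, c⟩
        exact ⟨⟨a, by linarith⟩, b, c⟩
    rw [this]
    have hbf : Continuous fun x : Fin 5 → ℝ => bf x x := by
      unfold bf; fun_prop
    refine IsClosed.inter (isClosed_eq hbf continuous_const) ?_
    refine IsClosed.inter (isClosed_le continuous_const (continuous_apply 4)) ?_
    refine IsClosed.inter (isClosed_le ((continuous_apply 4).pow 2) continuous_const) ?_
    refine IsClosed.inter (IsClosed.inter (isClosed_le continuous_const (continuous_apply 1))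
      (isClosed_le (continuous_apply 1) (continuous_const.mul (continuous_apply 4)))) ?_
    refine IsClosed.inter (IsClosed.inter (isClosed_le continuous_const (continuous_apply 2))
      (isClosed_le (continuous_apply 2) (continuous_apply 4))) ?_
    exact IsClosed.inter (isClosed_le continuous_const (continuous_apply 3))
      (isClosed_le (continuous_apply 3) (continuous_const.mul (continuous_apply 4)))
  exact isCompact_Icc.of_isClosed_subset hcl hsub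

/-- `FL` is covered by the compact part and the horoball. -/
theorem FL_sub {x : Fin 5 → ℝ} (hx : x ∈ FL) : x ∈ KL ∨ x 4 < 1 / 2 := by
  obtain ⟨h, h2, ⟨a1, a2⟩, ⟨b1, b2⟩, ⟨c1, c2⟩⟩ := hx
  have h4 := h.2
  by_cases hc : x 4 < 1 / 2
  · exact Or.inr hc
  · left
    have hc := not_lt.mp hc
    refine ⟨h, by linarith, h2, ⟨?_, ?_⟩, ⟨?_, ?_⟩, ⟨?_, ?_⟩⟩
    · rw [le_div_iff₀ h4] at a1; linarith
    · rw [div_lt_iff₀ h4] at a2; linarith
    · rw [le_div_iff₀ h4] at b1; linarith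
    · rw [div_lt_iff₀ h4] at b2; linarith
    · rw [le_div_iff₀ h4] at c1; linarith
    · rw [div_lt_iff₀ h4] at c2; linarith

end Lib_MP_55d5ef_geo
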